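import Pool.Agent.helper76.P2.STA0

/-! Project P2 (MP_063734_an), row STA, part 1: the cut-off functions on discs and the area estimate. -/

set_option autoImplicit false

open scoped ContDiff Topology
open MeasureTheory Filter Set Metric MvPolynomial Pool.Agent.helper37.QA

namespace Pool.Agent.P2

theorem STA_lap_zero {f : ℂ → ℝ} {z : ℂ} (h : f =ᶠ[𝓝 z] fun _ => 0) : lap f z = 0 := by
  have h1 := (h.iteratedFDeriv ℝ 2).eq_of_nhds
  unfold lap
  rw [h1]
  have h2 : iteratedFDeriv ℝ 2 (fun _ : ℂ => (0 : ℝ)) z = 0 := by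
    rw [iteratedFDeriv_fun_zero]
    rfl
  rw [h2]
  simp

theorem STA_lap_congr {f g : ℂ → ℝ} {z : ℂ} (h : f =ᶠ[𝓝 z] g) : lap f z = lap g z := by
  have h1 := (h.iteratedFDeriv ℝ 2).eq_of_nhds
  unfold lap
  rw [h1]

/-- the profile -/
noncomputable def STA_H (ρ t : ℝ) : ℝ := Real.smoothTransition (2 / ρ * (t - 1) + 3)

/-- the cut-off along a disc -/
noncomputable def STA_X (ρ : ℝ) (q : E3) (Z : ℂ → E3) (z : ℂ) : ℝ := STA_H ρ (STA_phi q (Z z))

theorem STA_H_smooth (ρ : ℝ) : ContDiff ℝ ∞ (STA_H ρ) :=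
  Real.smoothTransition.contDiff.comp ((contDiff_const.mul (contDiff_id.sub contDiff_const)).add contDiff_const)

theorem STA_H_zero {ρ t : ℝ} (hρ : 0 < ρ) (ht : t ≤ 1 - 3 / 2 * ρ) : STA_H ρ t = 0 := by
  apply Real.smoothTransition.zero_of_nonpos
  have h1 : 2 / ρ * (t - 1) ≤ 2 / ρ * (-(3 / 2 * ρ)) := mul_le_mul_of_nonneg_left (by linarith) (by positivity)
  have h2 : 2 / ρ * (-(3 / 2 * ρ)) = -3 := by
    field_simp
  linarith

theorem STA_H_one {ρ t : ℝ} (hρ : 0 < ρ) (ht : 1 - ρ ≤ t) : STA_H ρ t = 1 := by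
  apply Real.smoothTransition.one_of_one_le
  have h1 : 2 / ρ * (-ρ) ≤ 2 / ρ * (t - 1) := mul_le_mul_of_nonneg_left (by linarith) (by positivity)
  have h2 : 2 / ρ * (-ρ) = -2 := by
    field_simp
  linarith

theorem STA_phi_le (q W : E3) (hq : nq q = 1) : STA_phi q W ≤ 1 := by
  unfold STA_phi
  have h1 := STA_cs W q
  rw [hq, mul_one] at h1
  exact div_le_one_of_le₀ h1 (INTM_nq_nonneg _)

theorem STA_phi_cont (q : E3) {Z : ℂ → E3} {Ω : Set ℂ} (hΩ : IsOpen Ω) (hZ : DifferentiableOn ℂ Z Ω)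
    (h0 : ∀ z ∈ Ω, Z z ≠ 0) {z : ℂ} (hz : z ∈ Ω) : ContDiffAt ℝ ∞ (fun w => STA_phi q (Z w)) z := by
  have hn : ContDiff ℝ ∞ (Complex.normSq : ℂ → ℝ) := DMS_normSq
  have c : ∀ i, ContDiffAt ℝ ∞ (fun z => Z z i) z := fun i => by
    have h2 : DifferentiableOn ℂ (fun w => Z w i) Ω := fun w hw => (differentiableWithinAt_pi.1 (hZ w hw)) i
    exact ((h2.analyticAt (hΩ.mem_nhds hz)).contDiffAt (n := ∞)).restrict_scalars ℝ
  have hN2 : ContDiffAt ℝ ∞ (fun t => nq (Z t)) z := by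
    unfold nq
    exact ContDiffAt.sum fun i _ => hn.contDiffAt.comp z (c i)
  have h3 : ContDiffAt ℝ ∞ (fun z => INTM_ip (Z z) q) z :=
    (((STA_ip_hol hZ q).analyticAt (hΩ.mem_nhds hz)).contDiffAt (n := ∞)).restrict_scalars ℝ
  have h4 : ContDiffAt ℝ ∞ (fun t => Complex.normSq (INTM_ip (Z t) q)) z := hn.contDiffAt.comp z h3
  unfold STA_phi
  exact h4.div hN2 (INTM_nq_pos _ (h0 z hz)).ne'

theorem STA_X_cont (ρ : ℝ) (q : E3) {Z : ℂ → E3} {Ω : Set ℂ} (hΩ : IsOpen Ω) (hZ : DifferentiableOn ℂ Z Ω)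
    (h0 : ∀ z ∈ Ω, Z z ≠ 0) {z : ℂ} (hz : z ∈ Ω) : ContDiffAt ℝ ∞ (STA_X ρ q Z) z := by
  unfold STA_X
  exact (STA_H_smooth ρ).contDiffAt.comp z (STA_phi_cont q hΩ hZ h0 hz)

/-- pointwise estimate for the cut-off -/
theorem STA_X_est {ρ : ℝ} (hρ : 0 < ρ) (hρ8 : ρ ≤ 1 / 8) : ∃ M : ℝ, 0 < M ∧ ∀ q : E3, nq q = 1 → ∀ (Z : ℂ → E3) (Ω : Set ℂ),
    IsOpen Ω → DifferentiableOn ℂ Z Ω → (∀ z ∈ Ω, Z z ≠ 0) → ∀ z ∈ Ω, 1 - 2 * ρ < STA_phi q (Z z) →
      |lap (STA_X ρ q Z) z| + (1 / 2) * (fderiv ℝ (STA_X ρ q Z) z 1 ^ 2 + fderiv ℝ (STA_X ρ q Z) z Complex.I ^ 2) ≤ M * ar Z z := by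
  set H : ℝ → ℝ := fun t => STA_H ρ (Real.exp t) with hH
  have hHs : ContDiff ℝ ∞ H := (STA_H_smooth ρ).comp Real.contDiff_exp
  have hH2 : ContDiff ℝ 2 H := hHs.of_le ENat.LEInfty.out
  have hH1 : ContDiff ℝ 1 (deriv H) := by
    have : ContDiff ℝ (1 + 1) H := by
      rw [one_add_one_eq_two]
      exact hH2
    exact (contDiff_succ_iff_deriv.1 this).2.2
  have hc1 : Continuous (deriv H) := hH1.continuous
  have hc2 : Continuous (deriv (deriv H)) := by
    have : ContDiff ℝ (0 + 1) (deriv H) := by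
      rw [zero_add]
      exact hH1
    exact (contDiff_succ_iff_deriv.1 this).2.2.continuous
  obtain ⟨M1, hM1⟩ := (isCompact_Icc (a := Real.log (3 / 4)) (b := 0)).exists_bound_of_continuousOn hc1.continuousOn
  obtain ⟨M2, hM2⟩ := (isCompact_Icc (a := Real.log (3 / 4)) (b := 0)).exists_bound_of_continuousOn hc2.continuousOn
  set M : ℝ := max 1 (max M1 M2) with hM
  have hM1' : 1 ≤ M := le_max_left _ _
  refine ⟨11 * M ^ 2, by positivity, ?_⟩
  intro q hq Z Ω hΩ hZ h0 z hz hphi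
  have hphi34 : 3 / 4 < STA_phi q (Z z) := by linarith
  have ha : INTM_ip (Z z) q ≠ 0 := by
    intro h
    unfold STA_phi at hphi34
    rw [h] at hphi34
    simp at hphi34
    linarith
  obtain ⟨hψ, hlap, hgrad⟩ := STA_psi_est q hq hΩ hZ h0 hz ha
  have hev : STA_X ρ q Z =ᶠ[𝓝 z] fun w => H (STA_psi q Z w) := by
    have h1 : ContinuousAt (fun w => INTM_ip (Z w) q) z :=
      (STA_ip_hol hZ q).continuousOn.continuousAt (hΩ.mem_nhds hz)
    filter_upwards [h1.eventually_ne ha, hΩ.mem_nhds hz] with w hw hwΩ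
    have h2 : 0 < Complex.normSq (INTM_ip (Z w) q) := Complex.normSq_pos.2 hw
    have h3 : 0 < nq (Z w) := INTM_nq_pos _ (h0 w hwΩ)
    change STA_H ρ (STA_phi q (Z w)) = STA_H ρ (Real.exp (STA_psi q Z w))
    congr 1
    unfold STA_psi STA_phi
    rw [Real.exp_sub, Real.exp_log h2, Real.exp_log h3]
  have hψz : STA_psi q Z z ∈ Icc (Real.log (3 / 4)) 0 := by
    have h2 : 0 < Complex.normSq (INTM_ip (Z z) q) := Complex.normSq_pos.2 ha
    have h3 : 0 < nq (Z z) := INTM_nq_pos _ (h0 z hz)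
    have h4 : STA_psi q Z z = Real.log (STA_phi q (Z z)) := by
      unfold STA_psi STA_phi
      rw [Real.log_div h2.ne' h3.ne']
    rw [h4]
    refine ⟨Real.log_le_log (by norm_num) hphi34.le, Real.log_nonpos (by linarith) (STA_phi_le q _ hq)⟩
  have b1 : |deriv H (STA_psi q Z z)| ≤ M := (hM1 _ hψz).trans ((le_max_left _ _).trans (le_max_right _ _))
  have b2 : |deriv (deriv H) (STA_psi q Z z)| ≤ M := (hM2 _ hψz).trans ((le_max_right _ _).trans (le_max_right _ _))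
  have har : 0 ≤ ar Z z := by
    unfold ar
    exact div_nonneg (INTM_nq_nonneg _) (by positivity)
  set G : ℝ := fderiv ℝ (STA_psi q Z) z 1 ^ 2 + fderiv ℝ (STA_psi q Z) z Complex.I ^ 2 with hG
  have hG0 : 0 ≤ G := by positivity
  have hG1 : G ≤ 11 * ar Z z := by nlinarith
  have hd : ∀ v, fderiv ℝ (STA_X ρ q Z) z v = deriv H (STA_psi q Z z) * fderiv ℝ (STA_psi q Z) z v := by
    intro v
    rw [hev.fderiv_eq]
    exact STA_grad_comp hH2 (hψ.differentiableAt (by simp)) v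
  have hl : lap (STA_X ρ q Z) z = deriv H (STA_psi q Z z) * (-2 * ar Z z) +
      (1 / 4) * (deriv (deriv H) (STA_psi q Z z) * G) := by
    rw [STA_lap_congr hev, STA_lap_comp hH2 hψ, hlap]
  rw [hl, hd, hd]
  have e1 : |deriv H (STA_psi q Z z) * (-2 * ar Z z) + (1 / 4) * (deriv (deriv H) (STA_psi q Z z) * G)| ≤
      M * (2 * ar Z z) + (1 / 4) * (M * (11 * ar Z z)) := by
    refine (abs_add_le _ _).trans ?_
    rw [abs_mul, abs_mul (1 / 4 : ℝ), abs_mul (deriv (deriv H) _), abs_mul (-2 : ℝ), abs_of_nonneg har, abs_of_nonneg hG0]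
    rw [abs_of_nonneg (by norm_num : (0 : ℝ) ≤ 1 / 4), abs_neg, abs_two]
    gcongr
  have e2 : (deriv H (STA_psi q Z z) * fderiv ℝ (STA_psi q Z) z 1) ^ 2 +
      (deriv H (STA_psi q Z z) * fderiv ℝ (STA_psi q Z) z Complex.I) ^ 2 ≤ M ^ 2 * (11 * ar Z z) := by
    have e3 : (deriv H (STA_psi q Z z) * fderiv ℝ (STA_psi q Z) z 1) ^ 2 +
      (deriv H (STA_psi q Z z) * fderiv ℝ (STA_psi q Z) z Complex.I) ^ 2 = deriv H (STA_psi q Z z) ^ 2 * G := by
      rw [hG]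
      ring
    rw [e3]
    have e4 : deriv H (STA_psi q Z z) ^ 2 ≤ M ^ 2 := by
      rw [← sq_abs]
      gcongr
    gcongr
  have e5 : M * ar Z z ≤ M ^ 2 * ar Z z := by
    have : M ≤ M ^ 2 := by nlinarith
    gcongr
  nlinarith

theorem STA_eta_smooth : ContDiff ℝ ∞ eta :=
  Real.smoothTransition.contDiff.comp (contDiff_const.sub (contDiff_const.mul DMS_normSq))

theorem STA_eta_supp : tsupport eta ⊆ ball 0 1 := by
  have h1 : tsupport eta ⊆ closedBall 0 (4 / 5) := by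
    apply closure_minimal _ isClosed_closedBall
    intro z hz
    rw [mem_closedBall_zero_iff]
    by_contra hc
    push Not at hc
    apply hz
    have h2 : Complex.normSq z = ‖z‖ ^ 2 := Complex.normSq_eq_norm_sq z
    unfold eta
    apply Real.smoothTransition.zero_of_nonpos
    rw [h2]
    nlinarith
  exact h1.trans (closedBall_subset_ball (by norm_num))

theorem STA_eta_compact : HasCompactSupport eta :=
  IsCompact.of_isClosed_subset (isCompact_closedBall (0 : ℂ) 1) (isClosed_tsupport _)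
    (STA_eta_supp.trans ball_subset_closedBall)

theorem STA_eta_nonneg (z : ℂ) : 0 ≤ eta z := Real.smoothTransition.nonneg _

theorem STA_eta_le (z : ℂ) : eta z ≤ 1 := Real.smoothTransition.le_one _

theorem STA_eta_one {z : ℂ} (h : Complex.normSq z ≤ 1 / 2) : eta z = 1 := by
  unfold eta
  apply Real.smoothTransition.one_of_one_le
  linarith

theorem STA_eta_zero {z : ℂ} (h : z ∉ ball (0 : ℂ) 1) : eta z = 0 :=
  image_eq_zero_of_notMem_tsupport fun h1 => h (STA_eta_supp h1)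

/-- cut-off on the disc -/
noncomputable def STA_kap (ρ : ℝ) (q : E3) (Z : ℂ → E3) (z : ℂ) : ℝ := eta z ^ 2 * STA_X ρ q Z z

theorem STA_X_nonneg (ρ : ℝ) (q : E3) (Z : ℂ → E3) (z : ℂ) : 0 ≤ STA_X ρ q Z z := Real.smoothTransition.nonneg _

theorem STA_X_le (ρ : ℝ) (q : E3) (Z : ℂ → E3) (z : ℂ) : STA_X ρ q Z z ≤ 1 := Real.smoothTransition.le_one _

theorem STA_kap_supp (ρ : ℝ) (q : E3) (Z : ℂ → E3) : tsupport (STA_kap ρ q Z) ⊆ ball 0 1 := by
  have h : STA_kap ρ q Z = (fun z => eta z ^ 2) * STA_X ρ q Z := rfl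
  rw [h]
  exact (tsupport_mul_subset_left).trans DMS_eta.2

theorem STA_kap_smooth (ρ : ℝ) (q : E3) {Z : ℂ → E3} (hZ : DifferentiableOn ℂ Z (ball 0 1))
    (h0 : ∀ z ∈ ball (0 : ℂ) 1, Z z ≠ 0) : ContDiff ℝ ∞ (STA_kap ρ q Z) := by
  rw [contDiff_iff_contDiffAt]
  intro z
  by_cases hz : z ∈ tsupport (STA_kap ρ q Z)
  · exact DMS_eta.1.contDiffAt.mul (STA_X_cont ρ q isOpen_ball hZ h0 (STA_kap_supp ρ q Z hz))
  · exact contDiffAt_const.congr_of_eventuallyEq (notMem_tsupport_iff_eventuallyEq.1 hz)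

/-- the error density -/
noncomputable def STA_E (z : ℂ) : ℝ := |lap (fun z : ℂ => eta z ^ 2) z| +
  (1 / 2) * (fderiv ℝ eta z 1 ^ 2 + fderiv ℝ eta z Complex.I ^ 2)

theorem STA_E_nonneg (z : ℂ) : 0 ≤ STA_E z := by
  unfold STA_E
  positivity

theorem STA_E_int : Integrable STA_E := by
  have hE2 : ContDiff ℝ 2 (fun z : ℂ => eta z ^ 2) := DMS_eta.1.of_le ENat.LEInfty.out
  obtain ⟨h1, h2, h3⟩ := DMS_lap hE2 DMS_eta.2
  have h4 : Integrable (fun z => |lap (fun z : ℂ => eta z ^ 2) z|) := (h1.integrable_of_hasCompactSupport h3).abs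
  have h5 : ∀ v : ℂ, Integrable (fun z => fderiv ℝ eta z v ^ 2) := by
    intro v
    have c1 : Continuous (fun z => fderiv ℝ eta z v) :=
      (STA_eta_smooth.continuous_fderiv (by simp)).clm_apply continuous_const
    have c2 : HasCompactSupport (fun z => fderiv ℝ eta z v) := STA_eta_compact.fderiv_apply (𝕜 := ℝ) v
    have c3 : HasCompactSupport (fun z => fderiv ℝ eta z v ^ 2) := c2.comp_left (g := fun t : ℝ => t ^ 2) (by norm_num)
    exact (c1.pow 2).integrable_of_hasCompactSupport c3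
  exact h4.add (((h5 1).add (h5 Complex.I)).const_mul (1 / 2))

/-- the region of the disc over the ball around `q` -/
def STA_R (ρ : ℝ) (q : E3) (Z : ℂ → E3) : Set ℂ := {z | z ∈ ball (0 : ℂ) 1 ∧ 1 - 2 * ρ < STA_phi q (Z z)}

theorem STA_R_open (ρ : ℝ) (q : E3) {Z : ℂ → E3} (hZ : DifferentiableOn ℂ Z (ball 0 1))
    (h0 : ∀ z ∈ ball (0 : ℂ) 1, Z z ≠ 0) : IsOpen (STA_R ρ q Z) := by
  have hc : ContinuousOn (fun z => STA_phi q (Z z)) (ball 0 1) := fun z hz =>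
    ((STA_phi_cont q isOpen_ball hZ h0 hz).continuousAt).continuousWithinAt
  exact hc.isOpen_inter_preimage isOpen_ball isOpen_Ioi

theorem STA_ar_cont {Z : ℂ → E3} (hZ : DifferentiableOn ℂ Z (ball 0 1))
    (h0 : ∀ z ∈ ball (0 : ℂ) 1, Z z ≠ 0) : ContinuousOn (ar Z) (ball 0 1) := by
  have h1 : ∀ i, ContinuousOn (fun z => Z z i) (ball 0 1) := fun i => (continuousOn_pi.1 hZ.continuousOn) i
  have h2 : ∀ i, ContinuousOn (fun z => deriv Z z i) (ball 0 1) := fun i =>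
    (continuousOn_pi.1 (hZ.deriv isOpen_ball).continuousOn) i
  have h3 : ContinuousOn (fun z => nq (Z z)) (ball 0 1) := by
    unfold nq
    exact continuousOn_finsetSum _ fun i _ => Complex.continuous_normSq.comp_continuousOn (h1 i)
  have h4 : ContinuousOn (fun z => nq (crs (Z z) (deriv Z z))) (ball 0 1) := by
    unfold nq
    refine continuousOn_finsetSum _ fun i _ => Complex.continuous_normSq.comp_continuousOn ?_
    fin_cases i
    · exact ((h1 1).mul (h2 2)).sub ((h1 2).mul (h2 1))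
    · exact ((h1 2).mul (h2 0)).sub ((h1 0).mul (h2 2))
    · exact ((h1 0).mul (h2 1)).sub ((h1 1).mul (h2 0))
  unfold ar
  refine h4.div (continuousOn_const.mul (h3.pow 2)) fun z hz => ?_
  have := INTM_nq_pos _ (h0 z hz)
  positivity

/-- area density over the ball -/
noncomputable def STA_G (ρ : ℝ) (q : E3) (Z : ℂ → E3) : ℂ → ℝ := (STA_R ρ q Z).indicator fun z => eta z ^ 2 * ar Z z

theorem STA_ar_nonneg (Z : ℂ → E3) (z : ℂ) : 0 ≤ ar Z z := by
  unfold ar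
  exact div_nonneg (INTM_nq_nonneg _) (by positivity)

theorem STA_G_nonneg (ρ : ℝ) (q : E3) (Z : ℂ → E3) (z : ℂ) : 0 ≤ STA_G ρ q Z z :=
  Set.indicator_nonneg (fun z _ => mul_nonneg (sq_nonneg _) (STA_ar_nonneg Z z)) z

theorem STA_eta2_compact : HasCompactSupport (fun z : ℂ => eta z ^ 2) :=
  IsCompact.of_isClosed_subset (isCompact_closedBall (0 : ℂ) 1) (isClosed_tsupport _)
    (DMS_eta.2.trans ball_subset_closedBall)

theorem STA_G_int (ρ : ℝ) (q : E3) {Z : ℂ → E3} (hZ : DifferentiableOn ℂ Z (ball 0 1))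
    (h0 : ∀ z ∈ ball (0 : ℂ) 1, Z z ≠ 0) : Integrable (STA_G ρ q Z) := by
  have h1 : Integrable (fun z => eta z ^ 2 * ar Z z) :=
    MSS_integrable isOpen_ball DMS_eta.1.continuous DMS_eta.2 STA_eta2_compact (STA_ar_cont hZ h0)
  exact h1.indicator (STA_R_open ρ q hZ h0).measurableSet

/-- pointwise bound for the Laplacian of the cut-off -/
theorem STA_kap_est {ρ : ℝ} (hρ : 0 < ρ) {M : ℝ} (q : E3) {Z : ℂ → E3}
    (hZ : DifferentiableOn ℂ Z (ball 0 1)) (h0 : ∀ z ∈ ball (0 : ℂ) 1, Z z ≠ 0)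
    (hM : ∀ z ∈ ball (0 : ℂ) 1, 1 - 2 * ρ < STA_phi q (Z z) →
      |lap (STA_X ρ q Z) z| + (1 / 2) * (fderiv ℝ (STA_X ρ q Z) z 1 ^ 2 + fderiv ℝ (STA_X ρ q Z) z Complex.I ^ 2) ≤ M * ar Z z)
    (z : ℂ) : |lap (STA_kap ρ q Z) z| ≤ M * STA_G ρ q Z z + STA_E z := by
  by_cases hR : z ∈ STA_R ρ q Z
  · have hX : ContDiffAt ℝ 2 (STA_X ρ q Z) z := (STA_X_cont ρ q isOpen_ball hZ h0 hR.1).of_le ENat.LEInfty.out
    have hE2 : ContDiffAt ℝ 2 (fun z : ℂ => eta z ^ 2) z := (DMS_eta.1.of_le ENat.LEInfty.out).contDiffAt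
    have h1 : lap (STA_kap ρ q Z) z = eta z ^ 2 * lap (STA_X ρ q Z) z + STA_X ρ q Z z * lap (fun z : ℂ => eta z ^ 2) z +
      (1 / 2) * (fderiv ℝ (fun z : ℂ => eta z ^ 2) z 1 * fderiv ℝ (STA_X ρ q Z) z 1 +
        fderiv ℝ (fun z : ℂ => eta z ^ 2) z Complex.I * fderiv ℝ (STA_X ρ q Z) z Complex.I) := STA_lap_mul hE2 hX
    have h2 : ∀ v, fderiv ℝ (fun z : ℂ => eta z ^ 2) z v = 2 * eta z * fderiv ℝ eta z v := by
      intro v
      have h3 : HasFDerivAt eta (fderiv ℝ eta z) z := ((STA_eta_smooth.differentiable (by simp)) z).hasFDerivAt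
      have h4 := h3.pow 2
      have h5 : fderiv ℝ (fun z : ℂ => eta z ^ 2) z = _ := h4.fderiv
      rw [h5]
      simp
    have hGz : STA_G ρ q Z z = eta z ^ 2 * ar Z z := Set.indicator_of_mem hR _
    rw [h1, hGz, h2, h2]
    unfold STA_E
    have hm := hM z hR.1 hR.2
    set A := lap (STA_X ρ q Z) z
    set x1 := fderiv ℝ (STA_X ρ q Z) z 1
    set x2 := fderiv ℝ (STA_X ρ q Z) z Complex.I
    set e := eta z
    set e1 := fderiv ℝ eta z 1
    set e2 := fderiv ℝ eta z Complex.I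
    set L := lap (fun z : ℂ => eta z ^ 2) z
    have k1 : |STA_X ρ q Z z * L| ≤ |L| := by
      rw [abs_mul, abs_of_nonneg (STA_X_nonneg ρ q Z z)]
      have := STA_X_le ρ q Z z
      nlinarith [abs_nonneg L]
    have k2 : |(1 / 2) * (2 * e * e1 * x1 + 2 * e * e2 * x2)| ≤ (1 / 2) * (e1 ^ 2 + e2 ^ 2) + e ^ 2 * ((1 / 2) * (x1 ^ 2 + x2 ^ 2)) := by
      rw [abs_le]
      constructor
      · nlinarith [sq_nonneg (e1 + e * x1), sq_nonneg (e2 + e * x2)]
      · nlinarith [sq_nonneg (e1 - e * x1), sq_nonneg (e2 - e * x2)]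
    have k3 : |e ^ 2 * A| = e ^ 2 * |A| := by rw [abs_mul, abs_of_nonneg (sq_nonneg e)]
    have k4 : e ^ 2 * (|A| + (1 / 2) * (x1 ^ 2 + x2 ^ 2)) ≤ e ^ 2 * (M * ar Z z) := mul_le_mul_of_nonneg_left hm (sq_nonneg e)
    calc |e ^ 2 * A + STA_X ρ q Z z * L + (1 / 2) * (2 * e * e1 * x1 + 2 * e * e2 * x2)|
        ≤ |e ^ 2 * A| + |STA_X ρ q Z z * L| + |(1 / 2) * (2 * e * e1 * x1 + 2 * e * e2 * x2)| :=
          (abs_add_le _ _).trans (by gcongr; exact abs_add_le _ _)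
      _ ≤ M * (e ^ 2 * ar Z z) + (|L| + (1 / 2) * (e1 ^ 2 + e2 ^ 2)) := by
          rw [k3]
          nlinarith
  · have hG0 : STA_G ρ q Z z = 0 := Set.indicator_of_notMem hR _
    have h2 : lap (STA_kap ρ q Z) z = 0 := by
      apply STA_lap_zero
      by_cases hz : z ∈ ball (0 : ℂ) 1
      · have h3 : STA_phi q (Z z) < 1 - 3 / 2 * ρ := by
          by_contra hcon
          push Not at hcon
          exact hR ⟨hz, by linarith⟩
        have h4 : ContinuousAt (fun w => STA_phi q (Z w)) z := (STA_phi_cont q isOpen_ball hZ h0 hz).continuousAt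
        filter_upwards [h4.eventually (gt_mem_nhds h3)] with w hw
        unfold STA_kap STA_X
        rw [STA_H_zero hρ hw.le, mul_zero]
      · exact notMem_tsupport_iff_eventuallyEq.1 fun h => hz (STA_kap_supp ρ q Z h)
    rw [h2, hG0, mul_zero, zero_add, abs_zero]
    exact STA_E_nonneg z

end Pool.Agent.P2
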