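import Pool.Agent.helper37.P2.SpecD

set_option autoImplicit false

namespace Pool.Agent.P2

theorem LAT_re (κ a b : ℝ) : (((κ / 64 : ℝ) : ℂ) * ((a : ℂ) + (b : ℂ) * Complex.I)).re = κ / 64 * a := by
  rw [Complex.re_ofReal_mul]
  simp

theorem LAT_im (κ a b : ℝ) : (((κ / 64 : ℝ) : ℂ) * ((a : ℂ) + (b : ℂ) * Complex.I)).im = κ / 64 * b := by
  rw [Complex.im_ofReal_mul]
  simp

theorem LAT_bd {κ : ℝ} (hκ : 0 < κ) {M : ℕ} (hM : 128 / κ ≤ M) {a : ℤ} (h : |κ / 64 * (a : ℝ)| ≤ 2) : a ∈ Set.Icc (-(M : ℤ)) M := by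
  rw [abs_mul, abs_of_pos (by positivity : 0 < κ / 64)] at h
  have h1 : |(a : ℝ)| ≤ 128 / κ := by
    rw [le_div_iff₀ hκ]
    linarith
  have h2 : |(a : ℝ)| ≤ (M : ℝ) := h1.trans hM
  rw [abs_le] at h2
  constructor
  · have := h2.1
    exact_mod_cast this
  · have := h2.2
    exact_mod_cast this

theorem LAT_c1 (κ : ℝ) (hκ : 0 < κ) : (ctr κ).Finite := by
  obtain ⟨M, hM⟩ := exists_nat_ge (128 / κ)
  have hfin : ((fun p : ℤ × ℤ => ((κ / 64 : ℝ) : ℂ) * ((p.1 : ℂ) + (p.2 : ℂ) * Complex.I)) ''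
      (Set.Icc (-(M : ℤ)) M ×ˢ Set.Icc (-(M : ℤ)) M)).Finite :=
    ((Set.finite_Icc _ _).prod (Set.finite_Icc _ _)).image _
  refine hfin.subset ?_
  rintro c ⟨hc, a, b, rfl⟩
  refine ⟨(a, b), ⟨?_, ?_⟩, rfl⟩
  · apply LAT_bd hκ hM
    have h1 := LAT_re κ a b
    have h2 := Complex.abs_re_le_norm (((κ / 64 : ℝ) : ℂ) * (((a : ℝ) : ℂ) + ((b : ℝ) : ℂ) * Complex.I))
    rw [h1] at h2
    refine h2.trans ?_
    simpa using hc
  · apply LAT_bd hκ hM
    have h1 := LAT_im κ a b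
    have h2 := Complex.abs_im_le_norm (((κ / 64 : ℝ) : ℂ) * (((a : ℝ) : ℂ) + ((b : ℝ) : ℂ) * Complex.I))
    rw [h1] at h2
    refine h2.trans ?_
    simpa using hc

theorem LAT_c2 (κ : ℝ) (x : ℂ) (hκ : 0 < κ) : ‖x - rd κ x‖ ≤ κ / 64 := by
  have hne : κ ≠ 0 := hκ.ne'
  have hr : rd κ x = ((κ / 64 : ℝ) : ℂ) * (((round (64 * x.re / κ) : ℝ) : ℂ) + ((round (64 * x.im / κ) : ℝ) : ℂ) * Complex.I) := by
    unfold rd
    push_cast
    rfl
  have h1 : (x - rd κ x).re = κ / 64 * (64 * x.re / κ - round (64 * x.re / κ)) := by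
    rw [Complex.sub_re, hr, LAT_re]
    field_simp
  have h2 : (x - rd κ x).im = κ / 64 * (64 * x.im / κ - round (64 * x.im / κ)) := by
    rw [Complex.sub_im, hr, LAT_im]
    field_simp
  have h3 := abs_sub_round (64 * x.re / κ)
  have h4 := abs_sub_round (64 * x.im / κ)
  have h5 := Complex.norm_le_abs_re_add_abs_im (x - rd κ x)
  rw [h1, h2, abs_mul, abs_mul, abs_of_pos (by positivity : 0 < κ / 64)] at h5
  have hpos : 0 < κ / 64 := by positivity
  nlinarith [mul_le_mul_of_nonneg_left h3 hpos.le, mul_le_mul_of_nonneg_left h4 hpos.le]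

theorem LAT_c3 (κ : ℝ) (x : ℂ) (hκ : 0 < κ) (h1 : κ ≤ 1) (hx : ‖x‖ ≤ 1) : rd κ x ∈ ctr κ := by
  refine ⟨?_, round (64 * x.re / κ), round (64 * x.im / κ), ?_⟩
  · have h2 := LAT_c2 κ x hκ
    have h3 : ‖rd κ x‖ ≤ ‖x‖ + ‖x - rd κ x‖ := by
      have := norm_sub_le x (x - rd κ x)
      simpa using this
    linarith
  · rfl

theorem LAT_c4 (Y : E3) (hY : Y 0 ≠ 0 ∨ Y 1 ≠ 0) : ‖chx Y‖ ≤ 1 ∧ ∃ a y : ℂ, a ≠ 0 ∧ Y = a • cht (chi Y) (chx Y) y := by
  classical
  by_cases h : ‖Y 1‖ ≤ ‖Y 0‖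
  · have h0 : Y 0 ≠ 0 := by
      intro h0
      rw [h0, norm_zero] at h
      have h1 : Y 1 = 0 := norm_le_zero_iff.mp h
      rcases hY with hY | hY
      · exact hY h0
      · exact hY h1
    have e1 : chx Y = Y 1 / Y 0 := by
      unfold chx
      rw [if_pos h]
    have e2 : chi Y = 0 := by
      unfold chi
      rw [if_pos h]
    rw [e1, e2]
    refine ⟨?_, Y 0, Y 2 / Y 0, h0, ?_⟩
    · rw [norm_div]
      exact div_le_one_of_le₀ h (norm_nonneg _)
    · funext i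
      unfold cht
      rw [if_pos rfl]
      fin_cases i
      · simp
      · simp
        field_simp
      · simp
        field_simp
  · have h' : ‖Y 0‖ < ‖Y 1‖ := not_le.mp h
    have h0 : Y 1 ≠ 0 := by
      intro h0
      rw [h0, norm_zero] at h'
      exact absurd h' (not_lt.mpr (norm_nonneg _))
    have e1 : chx Y = Y 0 / Y 1 := by
      unfold chx
      rw [if_neg h]
    have e2 : chi Y = 1 := by
      unfold chi
      rw [if_neg h]
    rw [e1, e2]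
    refine ⟨?_, Y 1, Y 2 / Y 1, h0, ?_⟩
    · rw [norm_div]
      exact div_le_one_of_le₀ h'.le (norm_nonneg _)
    · funext i
      unfold cht
      rw [if_neg (by decide)]
      fin_cases i
      · simp
        field_simp
      · simp
      · simp
        field_simp

theorem LAT_c5 (ι : Fin 2) (a b x y x' y' : ℂ) (ha : a ≠ 0) (hb : b ≠ 0) (h : a • cht ι x y = b • cht ι x' y') : a = b ∧ x = x' ∧ y = y' := by
  have hh : ∀ i, a * cht ι x y i = b * cht ι x' y' i := fun i => congrFun h i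
  have h0 := hh 0
  have h1 := hh 1
  have h2 := hh 2
  unfold cht at h0 h1 h2
  by_cases hi : ι = 0
  · rw [if_pos hi, if_pos hi] at h0 h1 h2
    have k0 : a * 1 = b * 1 := h0
    have k1 : a * x = b * x' := h1
    have k2 : a * y = b * y' := h2
    have e : a = b := by simpa using k0
    rw [← e] at k1 k2
    exact ⟨e, mul_left_cancel₀ ha k1, mul_left_cancel₀ ha k2⟩
  · rw [if_neg hi, if_neg hi] at h0 h1 h2
    have k0 : a * x = b * x' := h0
    have k1 : a * 1 = b * 1 := h1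
    have k2 : a * y = b * y' := h2
    have e : a = b := by simpa using k1
    rw [← e] at k0 k2
    exact ⟨e, mul_left_cancel₀ ha k0, mul_left_cancel₀ ha k2⟩

theorem LAT : LAT_stmt :=
  ⟨LAT_c1, LAT_c2, LAT_c3, LAT_c4, LAT_c5⟩

end Pool.Agent.P2
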