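import Pool.Agent.helper37.QA.Quasi

/-! Project P2 (MP_063734_an): endomorphisms of projective space are open maps. -/

set_option autoImplicit false

open scoped ContDiff Topology
open MeasureTheory Filter Set Metric MvPolynomial Pool.Agent.helper37.QA

namespace Pool.Agent.P2

/-- the constant terms `a + t b` -/
noncomputable def OPN_lin {m : ℕ} (a b : Fin m → ℂ) (i : Fin m) : MvPolynomial (Fin m) (Polynomial ℂ) :=
  C (Polynomial.C (a i) + Polynomial.X * Polynomial.C (b i))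

theorem OPN_deg {m : ℕ} (a b : Fin m → ℂ) (i : Fin m) : (OPN_lin a b i).totalDegree ≤ 1 := by
  unfold OPN_lin
  rw [totalDegree_C]
  exact Nat.zero_le _

theorem OPN_ev {m : ℕ} (G : Fin m → MvPolynomial (Fin m) ℂ) (a b : Fin m → ℂ) (i : Fin m)
    (t : ℂ) (z : Fin m → ℂ) :
    Pool.Agent.helper37.QA.ev t z (eqs G (OPN_lin a b) i) = eval z (G i) - (a i + t * b i) := by
  rw [eqs, map_sub, ev_map, OPN_lin, ev_C]
  simp only [Polynomial.eval_mul, Polynomial.eval_X, Polynomial.eval_C, Polynomial.eval_add]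

/-- Persistence of solutions of `G(z) = a + t b`. -/
theorem OPN_persist {m D : ℕ} (hD : 2 ≤ D) {G : Fin m → MvPolynomial (Fin m) ℂ}
    (hom : ∀ i, (G i).IsHomogeneous D) (nd : ∀ x : Fin m → ℂ, (∀ i, eval x (G i) = 0) → x = 0)
    (a b : Fin m → ℂ) {t₀ : ℂ} {x₀ : Fin m → ℂ}
    (h0 : ∀ i, eval x₀ (G i) = a i + t₀ * b i) {ε : ℝ} (hε : 0 < ε) :
    ∃ η : ℝ, 0 < η ∧ ∀ t : ℂ, ‖t - t₀‖ < η → ∃ z : Fin m → ℂ,
      (∀ i, eval z (G i) = a i + t * b i) ∧ ‖z - x₀‖ < ε := by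
  classical
  by_contra hcon
  push Not at hcon
  have hl := OPN_deg a b
  have h0' : ∀ i, Pool.Agent.helper37.QA.ev t₀ x₀ (eqs G (OPN_lin a b) i) = 0 := by
    intro i
    rw [OPN_ev, h0 i, sub_self]
  have hfin := sol_finite hD hom nd hl t₀
  set F : Finset (Fin m → ℂ) := hfin.toFinset.erase x₀ with hF
  have hidx : ∀ w : Fin m → ℂ, w ≠ x₀ → ∃ j : Fin m, w j ≠ x₀ j := fun w hw => Function.ne_iff.1 hw
  have hq : ∃ q : MvPolynomial (Fin m) ℂ, eval x₀ q ≠ 0 ∧ ∀ w ∈ F, eval w q = 0 := by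
    have h : ∀ w : Fin m → ℂ, ∃ p : MvPolynomial (Fin m) ℂ, w ≠ x₀ → eval x₀ p ≠ 0 ∧ eval w p = 0 := by
      intro w
      by_cases hw : w = x₀
      · exact ⟨0, fun h => absurd hw h⟩
      · obtain ⟨j, hj⟩ := hidx w hw
        refine ⟨X j - C (w j), fun _ => ⟨?_, ?_⟩⟩
        · simp only [map_sub, eval_X, eval_C]
          exact sub_ne_zero.2 hj.symm
        · simp
    choose p hp using h
    refine ⟨∏ w ∈ F, p w, ?_, ?_⟩
    · rw [map_prod, Finset.prod_ne_zero_iff]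
      intro w hw
      exact (hp w (Finset.mem_erase.1 hw).1).1
    · intro w hw
      rw [map_prod]
      exact Finset.prod_eq_zero hw (hp w (Finset.mem_erase.1 hw).1).2
  obtain ⟨q, hqx, hqF⟩ := hq
  set δ : ℝ := ‖eval x₀ q‖ / 2 with hδ
  have hδpos : 0 < δ := by
    have := norm_pos_iff.2 hqx
    positivity
  obtain ⟨η₁, hη₁, hnear⟩ := near_value hD hom nd hl h0' q hδpos
  have hseq : ∀ n : ℕ, ∃ t : ℂ, ∃ z : Fin m → ℂ, ‖t - t₀‖ < min η₁ (1 / ((n : ℝ) + 1)) ∧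
      (∀ i, eval z (G i) = a i + t * b i) ∧ ‖eval z q - eval x₀ q‖ < δ ∧
      ε ≤ ‖z - x₀‖ := by
    intro n
    have hpos : 0 < min η₁ (1 / ((n : ℝ) + 1)) := lt_min hη₁ (by positivity)
    obtain ⟨t, ht, ht2⟩ := hcon _ hpos
    obtain ⟨z, hz, hz2⟩ := hnear t (lt_of_lt_of_le ht (min_le_left _ _))
    have hz' : ∀ i, eval z (G i) = a i + t * b i := by
      intro i
      have := hz i
      rw [OPN_ev] at this
      exact sub_eq_zero.1 this
    exact ⟨t, z, ht, hz', hz2, ht2 z hz'⟩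
  choose t z ht hz hzq hzε using hseq
  have htlim : Tendsto t atTop (𝓝 t₀) := by
    rw [tendsto_iff_norm_sub_tendsto_zero]
    refine squeeze_zero (fun n => norm_nonneg _) (fun n => ?_)
      (tendsto_one_div_add_atTop_nhds_zero_nat)
    exact ((ht n).trans_le (min_le_right _ _)).le
  -- boundedness
  obtain ⟨c, C, hc, hC, hcC⟩ := pmap_bounds hom nd
  have hbound : ∀ n, ‖z n‖ ≤ max 1 ((‖a‖ + (‖t₀‖ + 1) * ‖b‖) / c) := by
    intro n
    by_cases h1 : ‖z n‖ ≤ 1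
    · exact h1.trans (le_max_left _ _)
    · push Not at h1
      have hz0 : z n ≠ 0 := by
        intro h
        rw [h, norm_zero] at h1
        linarith
      have h2 := (hcC (z n) hz0).1
      have h3 : ‖pmap G (z n)‖ ≤ ‖a‖ + (‖t₀‖ + 1) * ‖b‖ := by
        have h4 : pmap G (z n) = a + t n • b := by
          funext i
          change eval (z n) (G i) = _
          rw [hz n i]
          simp only [Pi.add_apply, Pi.smul_apply, smul_eq_mul]
        rw [h4]
        have h5 : ‖t n‖ ≤ ‖t₀‖ + 1 := by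
          have h6 := ht n
          have h7 : ‖t n - t₀‖ < 1 / ((n : ℝ) + 1) := lt_of_lt_of_le h6 (min_le_right _ _)
          have h8 : (1 : ℝ) / ((n : ℝ) + 1) ≤ 1 := by
            rw [div_le_one (by positivity)]
            have : (0 : ℝ) ≤ n := Nat.cast_nonneg n
            linarith
          have h9 := norm_sub_norm_le (t n) t₀
          linarith
        calc ‖a + t n • b‖ ≤ ‖a‖ + ‖t n • b‖ := norm_add_le _ _
          _ = ‖a‖ + ‖t n‖ * ‖b‖ := by rw [norm_smul]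
          _ ≤ ‖a‖ + (‖t₀‖ + 1) * ‖b‖ := by gcongr
      have h12 : ‖z n‖ ^ 1 ≤ ‖z n‖ ^ D := pow_le_pow_right₀ h1.le (by omega)
      rw [pow_one] at h12
      have h13 : c * ‖z n‖ ≤ c * ‖z n‖ ^ D := by gcongr
      refine le_trans ?_ (le_max_right _ _)
      rw [le_div_iff₀ hc]
      linarith
  set B : ℝ := max 1 ((‖a‖ + (‖t₀‖ + 1) * ‖b‖) / c) with hB
  have hcpt : IsCompact (Metric.closedBall (0 : Fin m → ℂ) B) := isCompact_closedBall _ _
  obtain ⟨e, -, φ, hφ, hlim⟩ := hcpt.tendsto_subseq (x := z) fun n => by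
    rw [mem_closedBall_zero_iff]
    exact hbound n
  have htφ : Tendsto (t ∘ φ) atTop (𝓝 t₀) := htlim.comp hφ.tendsto_atTop
  have hsol : ∀ i, eval e (G i) = a i + t₀ * b i := by
    intro i
    have h1 : Tendsto (fun n => eval ((z ∘ φ) n) (G i)) atTop (𝓝 (eval e (G i))) :=
      ((MvPolynomial.continuous_eval (G i)).tendsto e).comp hlim
    have h2 : Tendsto (fun n => a i + (t ∘ φ) n * b i) atTop (𝓝 (a i + t₀ * b i)) :=
      (htφ.mul_const (b i)).const_add (a i)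
    have h4 : (fun n => eval ((z ∘ φ) n) (G i)) = fun n => a i + (t ∘ φ) n * b i := by
      funext n
      exact hz (φ n) i
    rw [h4] at h1
    exact tendsto_nhds_unique h1 h2
  have hqa : ‖eval e q - eval x₀ q‖ ≤ δ := by
    have h1 : Tendsto (fun n => ‖eval ((z ∘ φ) n) q - eval x₀ q‖) atTop
        (𝓝 ‖eval e q - eval x₀ q‖) :=
      ((((MvPolynomial.continuous_eval q).tendsto e).comp hlim).sub_const _).norm
    exact le_of_tendsto h1 (Eventually.of_forall fun n => (hzq (φ n)).le)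
  have hax : e = x₀ := by
    by_contra hne
    have haF : e ∈ F := by
      rw [hF, Finset.mem_erase, Set.Finite.mem_toFinset]
      refine ⟨hne, fun i => ?_⟩
      rw [OPN_ev, hsol i, sub_self]
    rw [hqF e haF, zero_sub, norm_neg, hδ] at hqa
    have := norm_pos_iff.2 hqx
    linarith
  have hfinal : ε ≤ ‖e - x₀‖ := by
    have h1 : Tendsto (fun n => ‖(z ∘ φ) n - x₀‖) atTop (𝓝 ‖e - x₀‖) :=
      (hlim.sub_const _).norm
    exact ge_of_tendsto h1 (Eventually.of_forall fun n => hzε (φ n))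
  rw [hax, sub_self, norm_zero] at hfinal
  linarith

/-- homogeneous nondegenerate polynomial maps are open -/
theorem OPN_pmap {m D : ℕ} (hD : 2 ≤ D) {G : Fin m → MvPolynomial (Fin m) ℂ}
    (hom : ∀ i, (G i).IsHomogeneous D) (nd : ∀ x : Fin m → ℂ, (∀ i, eval x (G i) = 0) → x = 0) :
    IsOpenMap (pmap G) := by
  have hp : ∀ (a b : Fin m → ℂ) (t₀ : ℂ) (x₀ : Fin m → ℂ), pmap G x₀ = a + t₀ • b → ∀ ε : ℝ, 0 < ε →
      ∃ η : ℝ, 0 < η ∧ ∀ t : ℂ, ‖t - t₀‖ < η → ∃ z : Fin m → ℂ, pmap G z = a + t • b ∧ ‖z - x₀‖ < ε := by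
    intro a b t₀ x₀ h0 ε hε
    obtain ⟨η, hη, h⟩ := OPN_persist hD hom nd a b (t₀ := t₀) (x₀ := x₀) (fun i => congrFun h0 i) hε
    refine ⟨η, hη, fun t ht => ?_⟩
    obtain ⟨z, hz, hz2⟩ := h t ht
    exact ⟨z, funext hz, hz2⟩
  rw [isOpenMap_iff_nhds_le]
  intro x₀ S hS
  rw [Filter.mem_map] at hS
  obtain ⟨ε, hε, hεS⟩ := Metric.mem_nhds_iff.1 hS
  -- a radius whose sphere does not meet the fibre
  have hfin : {z : Fin m → ℂ | pmap G z = pmap G x₀}.Finite := by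
    have h := sol_finite hD hom nd (OPN_deg (pmap G x₀) 0) 0
    refine h.subset fun z hz i => ?_
    rw [OPN_ev, Pi.zero_apply, mul_zero, add_zero, sub_eq_zero]
    exact congrFun hz i
  obtain ⟨ρ, hρ, hρε, hρ2⟩ : ∃ ρ : ℝ, 0 < ρ ∧ ρ < ε ∧ ∀ z, ‖z - x₀‖ = ρ → pmap G z ≠ pmap G x₀ := by
    have h1 : (((fun z => ‖z - x₀‖) '' {z : Fin m → ℂ | pmap G z = pmap G x₀})).Finite := hfin.image _
    have h2 : (Set.Ioo (0 : ℝ) ε).Infinite := Set.Ioo_infinite hε
    obtain ⟨ρ, hρ1, hρ2⟩ := h2.exists_notMem_finite h1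
    refine ⟨ρ, hρ1.1, hρ1.2, fun z hz hz2 => hρ2 ⟨z, hz2, hz⟩⟩
  have hcont := pmap_cont G
  have hcpt : IsCompact (pmap G '' Metric.sphere x₀ ρ) := (isCompact_sphere _ _).image hcont
  have hnot : pmap G x₀ ∉ pmap G '' Metric.sphere x₀ ρ := by
    rintro ⟨z, hz, hz2⟩
    rw [mem_sphere_iff_norm] at hz
    exact hρ2 z hz hz2
  obtain ⟨r, hr, hr2⟩ := Metric.mem_nhds_iff.1 (hcpt.isClosed.isOpen_compl.mem_nhds hnot)
  refine Metric.mem_nhds_iff.2 ⟨r, hr, fun y hy => ?_⟩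
  -- the segment from `pmap G x₀` to `y`
  set y₀ := pmap G x₀ with hy₀
  set γ : ℝ → Fin m → ℂ := fun s => y₀ + (s : ℂ) • (y - y₀) with hγ
  have hγc : Continuous γ := by
    rw [hγ]
    exact continuous_const.add ((Complex.continuous_ofReal).smul continuous_const)
  have hγr : ∀ s ∈ Set.Icc (0 : ℝ) 1, γ s ∈ ball y₀ r := by
    intro s hs
    rw [mem_ball_iff_norm] at hy ⊢
    have h1 : γ s - y₀ = (s : ℂ) • (y - y₀) := by rw [hγ]; simp
    rw [h1, norm_smul, Complex.norm_real, Real.norm_eq_abs, abs_of_nonneg hs.1]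
    have := norm_nonneg (y - y₀)
    nlinarith [hs.1, hs.2]
  have hKc : IsClosed (pmap G '' Metric.closedBall x₀ ρ) := ((isCompact_closedBall _ _).image hcont).isClosed
  have hall : Set.Icc (0 : ℝ) 1 ⊆ {s | γ s ∈ pmap G '' Metric.closedBall x₀ ρ} := by
    refine IsClosed.Icc_subset_of_forall_mem_nhdsWithin ?_ ?_ ?_
    · exact (hKc.preimage hγc).inter isClosed_Icc
    · refine ⟨x₀, mem_closedBall_self hρ.le, ?_⟩
      rw [hγ]
      simp [hy₀]
    · rintro s ⟨⟨x, hx, hxs⟩, hs⟩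
      have hs' : s ∈ Set.Icc (0 : ℝ) 1 := ⟨hs.1, hs.2.le⟩
      have hxb : ‖x - x₀‖ < ρ := by
        rw [mem_closedBall_iff_norm] at hx
        refine lt_of_le_of_ne hx fun he => ?_
        have h2 := hr2 (hγr s hs')
        exact h2 ⟨x, by rw [mem_sphere_iff_norm]; exact he, hxs⟩
      obtain ⟨η, hη, hη2⟩ := hp y₀ (y - y₀) (s : ℂ) x hxs (ρ - ‖x - x₀‖) (by linarith)
      refine mem_nhdsWithin_of_mem_nhds ?_
      refine Metric.mem_nhds_iff.2 ⟨η, hη, fun s' hs'2 => ?_⟩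
      obtain ⟨z, hz, hz2⟩ := hη2 (s' : ℂ) (by
        rw [← Complex.ofReal_sub, Complex.norm_real]
        rw [mem_ball_iff_norm] at hs'2
        exact hs'2)
      refine ⟨z, ?_, hz⟩
      rw [mem_closedBall_iff_norm]
      have h3 : z - x₀ = (z - x) + (x - x₀) := by abel
      rw [h3]
      exact (norm_add_le _ _).trans (by linarith)
  obtain ⟨z, hz, hz2⟩ := hall (⟨zero_le_one, le_rfl⟩ : (1 : ℝ) ∈ Set.Icc (0 : ℝ) 1)
  have h1 : γ 1 = y := by rw [hγ]; simp
  rw [h1] at hz2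
  rw [← hz2]
  have h2 : z ∈ ball x₀ ε := by
    rw [mem_ball_iff_norm]
    rw [mem_closedBall_iff_norm] at hz
    linarith
  exact hεS h2

/-- endomorphisms of projective space are open maps -/
theorem OPN {k d : ℕ} (f : Endo k d) (hd : 2 ≤ d) : IsOpenMap f.map := by
  intro U hU
  have h1 : toPP (k := k) ⁻¹' (f.map '' U) = (fun v : {v : Fin (k + 1) → ℂ // v ≠ 0} => v.1) ⁻¹' (pmap f.F '' cone U) := by
    ext ⟨v, hv⟩
    constructor
    · rintro ⟨p, hpU, hp⟩
      have hp0 : toPP ⟨p.rep, p.rep_nonzero⟩ = p := p.mk_rep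
      rw [← hp0, map_toPP] at hp
      obtain ⟨a, ha⟩ := (Projectivization.mk_eq_mk_iff' ℂ _ _ hv (pmap_ne f.nondeg p.rep_nonzero)).1 hp.symm
      have ha0 : a ≠ 0 := by
        rintro rfl
        rw [zero_smul] at ha
        exact hv ha.symm
      obtain ⟨c, hc⟩ := IsAlgClosed.exists_pow_nat_eq a (n := d) (by omega)
      have hc0 : c ≠ 0 := by
        rintro rfl
        rw [zero_pow (by omega)] at hc
        exact ha0 hc.symm
      refine ⟨c • p.rep, cone_smul ⟨p.rep_nonzero, by rw [hp0]; exact hpU⟩ hc0, ?_⟩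
      rw [pmap_smul f.hom, hc]
      exact ha
    · rintro ⟨x, ⟨hx, hxU⟩, hxv⟩
      refine ⟨_, hxU, ?_⟩
      rw [map_toPP]
      congr 1
      exact Subtype.ext hxv
  have h2 : IsOpen (pmap f.F '' cone U) := OPN_pmap hd f.hom f.nondeg _ (cone_open hU)
  have h3 : IsOpen (toPP (k := k) ⁻¹' (f.map '' U)) := by
    rw [h1]
    exact h2.preimage continuous_subtype_val
  exact isOpen_coinduced.2 h3

end Pool.Agent.P2
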