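import Pool.Agent.helper76.P2.STA2
import Pool.Agent.helper76.P2.OPN

/-! Project P2 (MP_063734_an), row STA: a disc of large mass has area in a charged ball. -/

set_option autoImplicit false

open scoped ContDiff Topology
open MeasureTheory Filter Set Metric MvPolynomial Pool.Agent.helper37.QA

namespace Pool.Agent.P2

/-- unit representatives -/
theorem STA_unit (p : PP 2) : ∃ q : E3, nq q = 1 ∧ ∃ h : q ≠ 0, toPP ⟨q, h⟩ = p := by
  have h0 : 0 < nq p.rep := INTM_nq_pos _ p.rep_nonzero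
  have hc : (((Real.sqrt (nq p.rep) : ℝ) : ℂ)⁻¹) ≠ 0 := by
    have : Real.sqrt (nq p.rep) ≠ 0 := (Real.sqrt_pos.2 h0).ne'
    exact inv_ne_zero (by exact_mod_cast this)
  refine ⟨(((Real.sqrt (nq p.rep) : ℝ) : ℂ)⁻¹) • p.rep, ?_, smul_ne_zero hc p.rep_nonzero, ?_⟩
  · have h1 : (((Real.sqrt (nq p.rep) : ℝ) : ℂ)⁻¹) • p.rep = fun i => (((Real.sqrt (nq p.rep) : ℝ) : ℂ)⁻¹) * p.rep i := rfl
    rw [h1, INTM_nq_smul, Complex.normSq_inv, Complex.normSq_ofReal, Real.mul_self_sqrt h0.le, inv_mul_cancel₀ h0.ne']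
  · rw [toPP_eq (smul_ne_zero hc p.rep_nonzero) p.rep_nonzero _ rfl]
    exact p.mk_rep

theorem STA_phi_smul (q W : E3) {c : ℂ} (hc : c ≠ 0) : STA_phi q (c • W) = STA_phi q W := by
  have h1 : INTM_ip (c • W) q = c * INTM_ip W q := by
    unfold INTM_ip
    rw [Finset.mul_sum]
    refine Finset.sum_congr rfl fun i _ => ?_
    rw [Pi.smul_apply, smul_eq_mul]
    ring
  have h2 : nq (c • W) = Complex.normSq c * nq W := INTM_nq_smul c W
  have h3 : Complex.normSq c ≠ 0 := (Complex.normSq_pos.2 hc).ne'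
  unfold STA_phi
  rw [h1, h2, Complex.normSq_mul, mul_div_mul_left _ _ h3]

/-- the function `phi` on the projective plane -/
noncomputable def STA_phP (q : E3) (p : PP 2) : ℝ := STA_phi q p.rep

theorem STA_phP_toPP (q W : E3) (h : W ≠ 0) : STA_phP q (toPP ⟨W, h⟩) = STA_phi q W := by
  obtain ⟨a, ha⟩ := Projectivization.exists_smul_eq_mk_rep ℂ W h
  unfold STA_phP
  change STA_phi q (Projectivization.mk ℂ W h).rep = _
  rw [← ha]
  exact STA_phi_smul q W a.ne_zero

theorem STA_phP_cont (q : E3) : Continuous (STA_phP q) := by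
  refine continuous_coinduced_dom.2 ?_
  have h1 : STA_phP q ∘ toPP = fun v : {v : Fin (2 + 1) → ℂ // v ≠ 0} => STA_phi q v.1 := by
    funext v
    exact STA_phP_toPP q v.1 v.2
  rw [h1]
  have h0 : ∀ l : Fin 3, Continuous fun v : {v : Fin (2 + 1) → ℂ // v ≠ 0} => v.1 l :=
    fun l => (continuous_apply l).comp continuous_subtype_val
  unfold STA_phi
  refine Continuous.div ?_ ?_ fun v => (INTM_nq_pos _ v.2).ne'
  · refine Complex.continuous_normSq.comp ?_
    unfold INTM_ip
    exact continuous_finsetSum _ fun l _ => (h0 l).mul continuous_const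
  · unfold nq
    exact continuous_finsetSum _ fun l _ => Complex.continuous_normSq.comp (h0 l)

/-- normalised representatives of a point of the ball -/
theorem STA_chart {ρ δ : ℝ} (hρ : 0 < ρ) (hρ8 : ρ ≤ 1 / 8) (hδ0 : 0 < δ) (hδ : 16 * ρ < δ ^ 2) (q : E3) (hq : nq q = 1)
    (p : PP 2) (hp : 1 - 2 * ρ ≤ STA_phP q p) :
    ∃ W : E3, INTM_ip W q = 1 ∧ (∀ i, ‖W i - q i‖ < δ / 2) ∧ ∃ h : W ≠ 0, toPP ⟨W, h⟩ = p := by
  have hN : 0 < nq p.rep := INTM_nq_pos _ p.rep_nonzero
  have ha : INTM_ip p.rep q ≠ 0 := by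
    intro h
    unfold STA_phP STA_phi at hp
    rw [h, Complex.normSq_zero, zero_div] at hp
    linarith
  set c : ℂ := (INTM_ip p.rep q)⁻¹ with hc
  have hc0 : c ≠ 0 := inv_ne_zero ha
  set W : E3 := c • p.rep with hW
  have hW0 : W ≠ 0 := smul_ne_zero hc0 p.rep_nonzero
  have hip : INTM_ip W q = 1 := by
    have h1 : INTM_ip W q = c * INTM_ip p.rep q := by
      unfold INTM_ip
      rw [Finset.mul_sum]
      refine Finset.sum_congr rfl fun i _ => ?_
      rw [hW, Pi.smul_apply, smul_eq_mul]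
      ring
    rw [h1, hc, inv_mul_cancel₀ ha]
  have hphi : STA_phi q W = STA_phP q p := STA_phi_smul q p.rep hc0
  have hNW : 0 < nq W := INTM_nq_pos _ hW0
  have hN1 : nq W ≤ 1 + 4 * ρ := by
    rw [← hphi] at hp
    unfold STA_phi at hp
    rw [hip, Complex.normSq_one, le_div_iff₀ hNW] at hp
    nlinarith
  have hsub : nq (fun i => W i - q i) = nq W - 1 := by
    have h1 := INTM_exp W q 1 (-1)
    rw [INTM_ip_self, Complex.ofReal_re, hip, hq] at h1
    have h2 : (fun i => (1 : ℂ) * W i + -1 * q i) = fun i => W i - q i := by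
      funext i
      ring
    rw [h2] at h1
    rw [h1]
    simp
    ring
  refine ⟨W, hip, fun i => ?_, hW0, ?_⟩
  · have h1 : Complex.normSq (W i - q i) ≤ nq (fun i => W i - q i) :=
      Finset.single_le_sum (f := fun i => Complex.normSq (W i - q i)) (fun i _ => Complex.normSq_nonneg _) (Finset.mem_univ i)
    rw [Complex.normSq_eq_norm_sq] at h1
    have h2 : ‖W i - q i‖ ^ 2 < (δ / 2) ^ 2 := by nlinarith
    exact lt_of_pow_lt_pow_left₀ 2 (by positivity) h2
  · rw [toPP_eq hW0 p.rep_nonzero c rfl]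
    exact p.mk_rep

theorem STA_near {ρ δ : ℝ} (hρ : 0 < ρ) (hρ8 : ρ ≤ 1 / 8) (hδ0 : 0 < δ) (hδ : 16 * ρ < δ ^ 2) (q : E3) (hq : nq q = 1)
    (p p' : PP 2) (hp : 1 - 2 * ρ ≤ STA_phP q p) (hp' : 1 - 2 * ρ ≤ STA_phP q p') : p ∈ Ar δ {p'} := by
  obtain ⟨W, hW1, hW2, hW0, hWp⟩ := STA_chart hρ hρ8 hδ0 hδ q hq p hp
  obtain ⟨Z, hZ1, hZ2, hZ0, hZp⟩ := STA_chart hρ hρ8 hδ0 hδ q hq p' hp'
  set A : M3 := fun i j => one3 i j + (W i - Z i) * (starRingEnd ℂ) (q j) with hA
  have hmv : mv A Z = W := by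
    funext i
    unfold mv
    have h1 : ∀ j, A i j * Z j = one3 i j * Z j + (W i - Z i) * (Z j * (starRingEnd ℂ) (q j)) := by
      intro j
      rw [hA]
      ring
    rw [Finset.sum_congr rfl fun j _ => h1 j, Finset.sum_add_distrib, ← Finset.mul_sum]
    have h2 : ∑ j, Z j * (starRingEnd ℂ) (q j) = 1 := hZ1
    have h3 : ∑ j, one3 i j * Z j = Z i := by
      unfold one3
      simp
    rw [h2, h3]
    ring
  refine ⟨Z, ⟨hZ0, hZp⟩, A, ?_, ?_⟩
  · intro i j
    have h1 : A i j - one3 i j = (W i - Z i) * (starRingEnd ℂ) (q j) := by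
      rw [hA]
      ring
    rw [h1, norm_mul, RCLike.norm_conj]
    have h2 : ‖q j‖ ≤ 1 := by
      have h3 : Complex.normSq (q j) ≤ nq q :=
        Finset.single_le_sum (f := fun i => Complex.normSq (q i)) (fun i _ => Complex.normSq_nonneg _) (Finset.mem_univ j)
      rw [Complex.normSq_eq_norm_sq, hq] at h3
      nlinarith [norm_nonneg (q j)]
    have h4 : ‖W i - Z i‖ < δ := by
      have h5 : W i - Z i = (W i - q i) - (Z i - q i) := by ring
      rw [h5]
      refine (norm_sub_le _ _).trans_lt ?_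
      linarith [hW2 i, hZ2 i]
    have h6 := norm_nonneg (W i - Z i)
    nlinarith [norm_nonneg (q j)]
  · have h : mv A Z ≠ 0 := by
      rw [hmv]
      exact hW0
    refine ⟨h, ?_⟩
    rw [← hWp]
    congr 1
    exact Subtype.ext hmv.symm

/-- row STA -/
theorem STA (hDMS : DMS_stmt) (hMSS : MSS_stmt) (hUN1 : UN1_stmt) (hRAD : RAD_stmt) : STA_stmt := by
  classical
  intro d f U δ hd hU hδ
  obtain ⟨C1, hC1, hun, hnq, hpq, -⟩ := hUN1 d f U hd hU
  have hpos : ∀ n : ℕ, ∀ Z ∈ cone (closure U), 0 < pq (It f n Z) := fun n Z hZ => (hpq n Z hZ).1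
  obtain ⟨r, hr, hr1, hrad⟩ := hRAD.1 d f U hU.1
  obtain ⟨CD, hCD, -, hDM, -, -⟩ := hDMS d f U r hd hU hr hr1 hrad
  -- the radius
  set ρ : ℝ := min (1 / 8) (δ ^ 2 / 32) with hρdef
  have hρ : 0 < ρ := lt_min (by norm_num) (by positivity)
  have hρ8 : ρ ≤ 1 / 8 := min_le_left _ _
  have hδρ : 16 * ρ < δ ^ 2 := by
    have h1 : ρ ≤ δ ^ 2 / 32 := min_le_right _ _
    have h2 : 0 < δ ^ 2 := by positivity
    linarith
  obtain ⟨A, Bc, hA, hBc, hest⟩ := STA_area hMSS hρ hρ8 d f U hd hU C1 hC1 hnq hpos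
  -- the cover
  have hK : IsCompact (f.map '' closure U) := isClosed_closure.isCompact.image (map_cont f)
  choose qv hqv1 hqv0 hqvp using STA_unit
  have hself : ∀ p, STA_phP (qv p) p = 1 := by
    intro p
    have h1 : STA_phP (qv p) (toPP ⟨qv p, hqv0 p⟩) = 1 := by
      rw [STA_phP_toPP]
      unfold STA_phi
      rw [INTM_ip_self, hqv1, Complex.normSq_ofReal]
      norm_num
    rwa [hqvp] at h1
  obtain ⟨t, -, htc⟩ := hK.elim_nhds_subcover (fun p => {x | 1 - ρ < STA_phP (qv p) x}) fun p _ =>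
    (isOpen_lt continuous_const (STA_phP_cont (qv p))).mem_nhds (by
      show 1 - ρ < STA_phP (qv p) p
      rw [hself]
      linarith)
  set e := t.equivFin with he
  set Q : Fin t.card → E3 := fun i => qv (e.symm i) with hQ
  have hQ1 : ∀ i, nq (Q i) = 1 := fun i => hqv1 _
  have hQc : ∀ x ∈ f.map '' closure U, ∃ i, 1 - ρ < STA_phP (Q i) x := by
    intro x hx
    obtain ⟨p, hp, hxp⟩ := Set.mem_iUnion₂.1 (htc hx)
    refine ⟨e ⟨p, hp⟩, ?_⟩
    rw [hQ]
    simp only [Equiv.symm_apply_apply]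
    exact hxp
  have hfU : f.map '' U ⊆ f.map '' closure U := Set.image_mono subset_closure
  have hfUU : f.map '' U ⊆ U := hfU.trans hU.1.2.2
  have hopen : IsOpen (f.map '' U) := OPN f hd U hU.1.1
  set k : ℝ := (t.card : ℝ) + 1 with hk
  have hk0 : 0 < k := by positivity
  refine ⟨t.card, fun i => {x | 1 - 2 * ρ < STA_phP (Q i) x} ∩ f.map '' U, 1 / (4 * k * A), 2 * CD + 4 * k * Bc + 1,
    by positivity, by positivity, ?_, ?_⟩
  · intro i
    have hBo : IsOpen ({x | 1 - 2 * ρ < STA_phP (Q i) x} ∩ f.map '' U) :=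
      (isOpen_lt continuous_const (STA_phP_cont (Q i))).inter hopen
    have hcl : closure ({x | 1 - 2 * ρ < STA_phP (Q i) x} ∩ f.map '' U) ⊆ {x | 1 - 2 * ρ ≤ STA_phP (Q i) x} := by
      refine closure_minimal ?_ (isClosed_le continuous_const (STA_phP_cont (Q i)))
      intro x hx
      exact (le_of_lt hx.1 : 1 - 2 * ρ ≤ STA_phP (Q i) x)
    refine ⟨hBo, Set.inter_subset_right, fun p hp p' hp' => ?_⟩
    exact STA_near hρ hρ8 hδ hδρ (Q i) (hQ1 i) p p' (hcl hp) (hcl hp')
  · intro n Z hZ hmass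
    set μ : ℝ := mass f n Z with hμ
    have hZU : Dsc U Z := ⟨hZ.1, fun z hz => DMS_cone hfUU (hZ.2 z hz)⟩
    have h0 : ∀ z ∈ ball (0 : ℂ) 1, Z z ≠ 0 := fun z hz => (hZ.2 z hz).1
    have hμ1 : 2 * CD ≤ μ := by
      have : 0 < 4 * k * Bc := by positivity
      linarith
    have hμ2 : 4 * k * Bc ≤ μ := by linarith
    have hμ0 : 0 < μ := by
      have : 0 < 4 * k * Bc := by positivity
      linarith
    have hksupp : ∀ i, tsupport (STA_kap ρ (Q i) Z) ⊆ ball 0 1 := fun i => STA_kap_supp ρ (Q i) Z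
    have hkcont : ∀ i, Continuous (STA_kap ρ (Q i) Z) := fun i => (STA_kap_smooth ρ (Q i) hZ.1 h0).continuous
    have hkcpt : ∀ i, HasCompactSupport (STA_kap ρ (Q i) Z) := fun i =>
      IsCompact.of_isClosed_subset (isCompact_closedBall (0 : ℂ) 1) (isClosed_tsupport _)
        ((hksupp i).trans ball_subset_closedBall)
    have htau : ∀ N, ContinuousOn (tau f N Z) (ball 0 1) := fun N => STA_tau_cont f U N (hpos N) hZU
    have hint : ∀ N i, Integrable (fun z => STA_kap ρ (Q i) Z z * tau f N Z z) := fun N i =>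
      MSS_integrable isOpen_ball (hkcont i) (hksupp i) (hkcpt i) (htau N)
    -- masses
    have hsum : ∀ N, mass f N Z ≤ ∑ i, ∫ z, STA_kap ρ (Q i) Z z * tau f N Z z := by
      intro N
      rw [← integral_finsetSum _ fun i _ => hint N i]
      unfold mass
      refine integral_mono (MSS_integrable isOpen_ball DMS_eta.1.continuous DMS_eta.2 STA_eta2_compact (htau N))
        (integrable_finsetSum _ fun i _ => hint N i) fun z => ?_
      change eta z ^ 2 * tau f N Z z ≤ ∑ i, STA_kap ρ (Q i) Z z * tau f N Z z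
      have hn : ∀ i ∈ (Finset.univ : Finset (Fin t.card)), 0 ≤ STA_kap ρ (Q i) Z z * tau f N Z z := fun i _ =>
        mul_nonneg (mul_nonneg (sq_nonneg _) (STA_X_nonneg _ _ _ _)) (STA_tau_nonneg f N Z z)
      by_cases hz : z ∈ ball (0 : ℂ) 1
      · obtain ⟨hz0, hzU⟩ := hZ.2 z hz
        obtain ⟨i, hi⟩ := hQc _ (hfU hzU)
        rw [STA_phP_toPP] at hi
        refine le_trans ?_ (Finset.single_le_sum hn (Finset.mem_univ i))
        unfold STA_kap STA_X
        rw [STA_H_one hρ hi.le, mul_one]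
      · rw [STA_eta_zero hz]
        have : (0 : ℝ) ^ 2 * tau f N Z z = 0 := by ring
        rw [this]
        exact Finset.sum_nonneg hn
    have hex : ∀ N, ∃ i, μ / (2 * k) ≤ ∫ z, STA_kap ρ (Q i) Z z * tau f N Z z := by
      intro N
      by_contra hcon
      push Not at hcon
      have h1 : ∑ i, ∫ z, STA_kap ρ (Q i) Z z * tau f N Z z ≤ ∑ _i : Fin t.card, μ / (2 * k) :=
        Finset.sum_le_sum fun i _ => (hcon i).le
      rw [Finset.sum_const, Finset.card_univ, Fintype.card_fin, nsmul_eq_mul] at h1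
      have h2 : (t.card : ℝ) * (μ / (2 * k)) < μ / 2 := by
        rw [mul_div_assoc', div_lt_div_iff₀ (by positivity) (by norm_num), hk]
        nlinarith
      have h3 := (abs_le.1 (hDM N n Z hZU)).1
      have h4 := hsum N
      linarith
    obtain ⟨i, hi⟩ : ∃ i, ∃ᶠ N in atTop, μ / (2 * k) ≤ ∫ z, STA_kap ρ (Q i) Z z * tau f N Z z := by
      by_contra hcon
      push Not at hcon
      have h1 : ∀ᶠ N in atTop, ∀ i, ∫ z, STA_kap ρ (Q i) Z z * tau f N Z z < μ / (2 * k) := by
        rw [Filter.eventually_all]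
        intro i
        have := hcon i
        exact this
      obtain ⟨N, hN⟩ := h1.exists
      obtain ⟨i, hi⟩ := hex N
      exact absurd (hN i) (not_lt.2 hi)
    have hBo : IsOpen ({x | 1 - 2 * ρ < STA_phP (Q i) x} ∩ f.map '' U) :=
      (isOpen_lt continuous_const (STA_phP_cont (Q i))).inter hopen
    have hcone : ∀ z ∈ ball (0 : ℂ) 1, 1 - 2 * ρ < STA_phi (Q i) (Z z) →
        Z z ∈ cone ({x | 1 - 2 * ρ < STA_phP (Q i) x} ∩ f.map '' U) := by
      intro z hz hphi
      obtain ⟨hz0, hzU⟩ := hZ.2 z hz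
      refine ⟨hz0, ?_, hzU⟩
      change 1 - 2 * ρ < STA_phP (Q i) (toPP ⟨Z z, hz0⟩)
      rw [STA_phP_toPP]
      exact hphi
    refine ⟨i, ?_, ?_⟩
    · refine STA_charged hMSS d f U hd hU C1 hun hpos _ hBo (Set.inter_subset_right.trans hfUU) Z hZU
        (STA_kap ρ (Q i) Z) (hkcont i) (fun z => ?_) (fun z hz => ?_) (μ / (2 * k)) (by positivity) hi
      · unfold STA_kap
        have h1 := STA_X_le ρ (Q i) Z z
        have h2 := STA_X_nonneg ρ (Q i) Z z
        have h3 := STA_eta_le z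
        have h4 := STA_eta_nonneg z
        have h5 : eta z ^ 2 ≤ 1 := by nlinarith
        nlinarith [sq_nonneg (eta z)]
      · have hzb := hksupp i hz
        refine ⟨hzb, hcone z hzb ?_⟩
        by_contra hcon
        push Not at hcon
        have h3 : STA_phi (Q i) (Z z) < 1 - 3 / 2 * ρ := by linarith
        have h4 : ContinuousAt (fun w => STA_phi (Q i) (Z w)) z := (STA_phi_cont (Q i) isOpen_ball hZ.1 h0 hzb).continuousAt
        have h5 : STA_kap ρ (Q i) Z =ᶠ[𝓝 z] 0 := by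
          filter_upwards [h4.eventually (gt_mem_nhds h3)] with w hw
          unfold STA_kap STA_X
          rw [STA_H_zero hρ hw.le, mul_zero, Pi.zero_apply]
        exact (notMem_tsupport_iff_eventuallyEq.2 h5) hz
    · obtain ⟨N, hN⟩ := hi.exists
      have h1 := hest (Q i) (hQ1 i) Z N hZU
      have hG := STA_G_int ρ (Q i) hZ.1 h0
      have h2 : 1 / (4 * k * A) * μ ≤ ∫ z, STA_G ρ (Q i) Z z := by
        have h3 : Bc ≤ μ / (4 * k) := by
          rw [le_div_iff₀ (by positivity)]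
          linarith
        have h4 : μ / (2 * k) = μ / (4 * k) + μ / (4 * k) := by
          field_simp
          ring
        have h5 : μ / (4 * k) ≤ A * ∫ z, STA_G ρ (Q i) Z z := by linarith
        have h6 : 1 / (4 * k * A) * μ = μ / (4 * k) / A := by
          field_simp
        rw [h6, div_le_iff₀ hA]
        linarith
      refine (ENNReal.ofReal_le_ofReal h2).trans ?_
      rw [ofReal_integral_eq_lintegral_ofReal hG (Eventually.of_forall fun z => STA_G_nonneg ρ (Q i) Z z)]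
      unfold arm
      refine lintegral_mono fun z => ?_
      by_cases hR : z ∈ STA_R ρ (Q i) Z
      · have hGz : STA_G ρ (Q i) Z z = eta z ^ 2 * ar Z z := Set.indicator_of_mem hR _
        change ENNReal.ofReal (STA_G ρ (Q i) Z z) ≤ _
        rw [hGz, if_pos (hcone z hR.1 hR.2)]
      · have hG0 : STA_G ρ (Q i) Z z = 0 := Set.indicator_of_notMem hR _
        change ENNReal.ofReal (STA_G ρ (Q i) Z z) ≤ _
        rw [hG0, ENNReal.ofReal_zero]
        exact zero_le

end Pool.Agent.P2
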