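import Pool.Agent.helper76.P2.STA1

/-! Project P2 (MP_063734_an), row STA, part 2: the area estimate and sub-discs. -/

set_option autoImplicit false

open scoped ContDiff Topology
open MeasureTheory Filter Set Metric MvPolynomial Pool.Agent.helper37.QA

namespace Pool.Agent.P2

theorem STA_tau_nonneg {d : ℕ} (f : Endo 2 d) (N : ℕ) (Z : ℂ → E3) (z : ℂ) : 0 ≤ tau f N Z z := by
  unfold tau
  refine div_nonneg (div_nonneg (mul_nonneg (by norm_num) (Complex.normSq_nonneg _)) (sq_nonneg _)) ?_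
  positivity

theorem STA_tau_cont {d : ℕ} (f : Endo 2 d) (U : Set (PP 2)) (N : ℕ)
    (hp : ∀ Z ∈ cone (closure U), 0 < pq (It f N Z)) {Z : ℂ → E3} (hZ : Dsc U Z) :
    ContinuousOn (tau f N Z) (ball 0 1) := by
  have h1 := DMS_It f N hZ.1
  have h2 : ∀ i, DifferentiableOn ℂ (fun z => It f N (Z z) i) (ball 0 1) := fun i w hw =>
    (differentiableWithinAt_pi.1 (h1 w hw)) i
  have h3 : ∀ i, ContinuousOn (deriv fun z => It f N (Z z) i) (ball 0 1) := fun i =>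
    ((h2 i).deriv isOpen_ball).continuousOn
  have h4 : ContinuousOn (fun z => pq (It f N (Z z))) (ball 0 1) := by
    unfold pq
    exact (Complex.continuous_normSq.comp_continuousOn (h2 0).continuousOn).add
      (Complex.continuous_normSq.comp_continuousOn (h2 1).continuousOn)
  unfold tau
  refine ContinuousOn.div_const ?_ _
  refine (continuousOn_const.mul (Complex.continuous_normSq.comp_continuousOn
    (((h2 1).continuousOn.mul (h3 0)).sub ((h2 0).continuousOn.mul (h3 1))))).div (h4.pow 2) fun z hz => ?_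
  have := hp _ (DMS_cone subset_closure (hZ.2 z hz))
  positivity

/-- the area estimate -/
theorem STA_area (hMSS : MSS_stmt) {ρ : ℝ} (hρ : 0 < ρ) (hρ8 : ρ ≤ 1 / 8) (d : ℕ) (f : Endo 2 d) (U : Set (PP 2))
    (hd : 2 ≤ d) (hU : Good0 f U) (C1 : ℝ) (hC1 : 0 < C1)
    (hnq : ∀ n : ℕ, ∀ Z ∈ cone (closure U), |un f n Z - (1 / 2) * Real.log (nq Z)| ≤ C1)
    (hpos : ∀ n : ℕ, ∀ Z ∈ cone (closure U), 0 < pq (It f n Z)) :
    ∃ A B : ℝ, 0 < A ∧ 0 < B ∧ ∀ q : E3, nq q = 1 → ∀ (Z : ℂ → E3) (N : ℕ), Dsc U Z →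
      ∫ z, STA_kap ρ q Z z * tau f N Z z ≤ A * (∫ z, STA_G ρ q Z z) + B := by
  obtain ⟨M, hM0, hM⟩ := STA_X_est hρ hρ8
  have hE0 : 0 ≤ ∫ z, STA_E z := integral_nonneg STA_E_nonneg
  refine ⟨1 + C1 * M, C1 * (∫ z, STA_E z) + 1, by positivity, by positivity, ?_⟩
  intro q hq Z N hZ
  have h0 : ∀ z ∈ ball (0 : ℂ) 1, Z z ≠ 0 := fun z hz => (hZ.2 z hz).1
  have hks := STA_kap_smooth ρ q hZ.1 h0
  have hksupp := STA_kap_supp ρ q Z
  have hk2 : ContDiff ℝ 2 (STA_kap ρ q Z) := hks.of_le ENat.LEInfty.out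
  have hkc : HasCompactSupport (STA_kap ρ q Z) :=
    IsCompact.of_isClosed_subset (isCompact_closedBall (0 : ℂ) 1) (isClosed_tsupport _)
      (hksupp.trans ball_subset_closedBall)
  obtain ⟨l1, l2, l3⟩ := DMS_lap hk2 hksupp
  have hGint := STA_G_int ρ q hZ.1 h0
  -- tau
  have e1 : ∫ z, STA_kap ρ q Z z * tau f N Z z = ∫ z, lap (STA_kap ρ q Z) z * un f N (Z z) :=
    (hMSS d f U hd hU Z hZ N).2 _ hks hksupp
  -- area
  have hsm := DMS_nq hZ.1 h0
  have e2 : ∫ z, STA_kap ρ q Z z * ar Z z = ∫ z, lap (STA_kap ρ q Z) z * ((1 / 2) * Real.log (nq (Z z))) := by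
    rw [← MSS_green isOpen_ball hk2 hksupp hkc hsm]
    refine integral_congr_ae (Eventually.of_forall fun z => ?_)
    change STA_kap ρ q Z z * ar Z z = STA_kap ρ q Z z * lap (fun z => (1 / 2) * Real.log (nq (Z z))) z
    by_cases hz : z ∈ ball (0 : ℂ) 1
    · rw [DMS_ar hZ.1 h0 z hz]
    · have hk0 : STA_kap ρ q Z z = 0 := image_eq_zero_of_notMem_tsupport fun h => hz (hksupp h)
      rw [hk0, zero_mul, zero_mul]
  have e3 := DMS_diff l1 l2 l3 (DMS_un f U N (hpos N) hZ) hsm.continuousOn C1 fun z hz =>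
    hnq N _ (DMS_cone subset_closure (hZ.2 z hz))
  rw [← e1, ← e2] at e3
  -- the integral of the Laplacian
  have e4 : ∫ z, |lap (STA_kap ρ q Z) z| ≤ M * (∫ z, STA_G ρ q Z z) + ∫ z, STA_E z := by
    have i1 : Integrable (fun z => M * STA_G ρ q Z z) := hGint.const_mul M
    rw [← integral_const_mul, ← integral_add i1 STA_E_int]
    refine integral_mono ((l1.integrable_of_hasCompactSupport l3).abs) (i1.add STA_E_int) fun z => ?_
    exact STA_kap_est hρ q hZ.1 h0 (fun z hz hphi => hM q hq Z _ isOpen_ball hZ.1 h0 z hz hphi) z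
  have e5 : ∫ z, STA_kap ρ q Z z * ar Z z ≤ ∫ z, STA_G ρ q Z z := by
    refine integral_mono (MSS_integrable isOpen_ball hks.continuous hksupp hkc (STA_ar_cont hZ.1 h0)) hGint fun z => ?_
    change STA_kap ρ q Z z * ar Z z ≤ STA_G ρ q Z z
    by_cases hR : z ∈ STA_R ρ q Z
    · have hGz : STA_G ρ q Z z = eta z ^ 2 * ar Z z := Set.indicator_of_mem hR _
      rw [hGz]
      unfold STA_kap
      have h1 := STA_X_le ρ q Z z
      have h2 := STA_ar_nonneg Z z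
      have h3 : eta z ^ 2 * STA_X ρ q Z z ≤ eta z ^ 2 := by nlinarith [sq_nonneg (eta z)]
      gcongr
    · have h1 : STA_kap ρ q Z z = 0 := by
        unfold STA_kap
        by_cases hz : z ∈ ball (0 : ℂ) 1
        · have h3 : STA_phi q (Z z) ≤ 1 - 3 / 2 * ρ := by
            by_contra hcon
            push Not at hcon
            exact hR ⟨hz, by linarith⟩
          unfold STA_X
          rw [STA_H_zero hρ h3, mul_zero]
        · rw [STA_eta_zero hz]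
          ring
      rw [h1, zero_mul]
      exact STA_G_nonneg ρ q Z z
  have e6 := (abs_le.1 e3).2
  have e7 : (∫ z, |lap (STA_kap ρ q Z) z|) * C1 ≤ (M * (∫ z, STA_G ρ q Z z) + ∫ z, STA_E z) * C1 := by gcongr
  nlinarith

/-- the sub-disc of radius `2 r` -/
noncomputable def STA_sub (Z : ℂ → E3) (z₀ : ℂ) (r : ℝ) : ℂ → E3 := fun w => Z (z₀ + ((2 * r : ℝ) : ℂ) * w)

theorem STA_sub_tau {d : ℕ} (f : Endo 2 d) (N : ℕ) (Z : ℂ → E3) (z₀ : ℂ) (r : ℝ) (w : ℂ) :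
    tau f N (STA_sub Z z₀ r) w = (2 * r) ^ 2 * tau f N Z (z₀ + ((2 * r : ℝ) : ℂ) * w) := by
  have hd : ∀ i, deriv (fun w => It f N (STA_sub Z z₀ r w) i) w =
      ((2 * r : ℝ) : ℂ) * deriv (fun z => It f N (Z z) i) (z₀ + ((2 * r : ℝ) : ℂ) * w) := by
    intro i
    have h1 := deriv_comp_mul_left ((2 * r : ℝ) : ℂ) (fun z => It f N (Z (z₀ + z)) i) w
    have h2 := deriv_comp_const_add (f := fun z => It f N (Z z) i) z₀ (((2 * r : ℝ) : ℂ) * w)
    rw [h2, smul_eq_mul] at h1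
    exact h1
  unfold tau
  rw [hd, hd]
  have e : It f N (STA_sub Z z₀ r w) = It f N (Z (z₀ + ((2 * r : ℝ) : ℂ) * w)) := rfl
  rw [e]
  set a := It f N (Z (z₀ + ((2 * r : ℝ) : ℂ) * w)) 0
  set b := It f N (Z (z₀ + ((2 * r : ℝ) : ℂ) * w)) 1
  set a' := deriv (fun z => It f N (Z z) 0) (z₀ + ((2 * r : ℝ) : ℂ) * w)
  set b' := deriv (fun z => It f N (Z z) 1) (z₀ + ((2 * r : ℝ) : ℂ) * w)
  have e2 : b * (((2 * r : ℝ) : ℂ) * a') - a * (((2 * r : ℝ) : ℂ) * b') = ((2 * r : ℝ) : ℂ) * (b * a' - a * b') := by ring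
  rw [e2, Complex.normSq_mul, Complex.normSq_ofReal]
  ring

theorem STA_sub_mass {d : ℕ} (f : Endo 2 d) (N : ℕ) (Z : ℂ → E3) (z₀ : ℂ) {r : ℝ} (hr : 0 < r) :
    mass f N (STA_sub Z z₀ r) = ∫ x, eta (((2 * r : ℝ) : ℂ)⁻¹ * (x - z₀)) ^ 2 * tau f N Z x := by
  have hr2 : ((2 * r : ℝ) : ℂ) ≠ 0 := by
    have : (2 * r : ℝ) ≠ 0 := by positivity
    exact_mod_cast this
  set F : ℂ → ℝ := fun x => eta (((2 * r : ℝ) : ℂ)⁻¹ * (x - z₀)) ^ 2 * tau f N Z x with hF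
  have h1 : mass f N (STA_sub Z z₀ r) = ∫ w, (2 * r) ^ 2 * F (z₀ + (2 * r) • w) := by
    unfold mass
    refine integral_congr_ae (Eventually.of_forall fun w => ?_)
    change eta w ^ 2 * tau f N (STA_sub Z z₀ r) w = (2 * r) ^ 2 * F (z₀ + (2 * r) • w)
    rw [STA_sub_tau, hF]
    have e1 : (2 * r) • w = ((2 * r : ℝ) : ℂ) * w := Complex.real_smul
    rw [e1]
    change _ = (2 * r) ^ 2 * (eta (((2 * r : ℝ) : ℂ)⁻¹ * (z₀ + ((2 * r : ℝ) : ℂ) * w - z₀)) ^ 2 *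
      tau f N Z (z₀ + ((2 * r : ℝ) : ℂ) * w))
    have e2 : ((2 * r : ℝ) : ℂ)⁻¹ * (z₀ + ((2 * r : ℝ) : ℂ) * w - z₀) = w := by
      rw [add_sub_cancel_left, ← mul_assoc, inv_mul_cancel₀ hr2, one_mul]
    rw [e2]
    ring
  rw [h1, integral_const_mul]
  have h2 := MeasureTheory.Measure.integral_comp_smul (volume : Measure ℂ) (fun x => F (z₀ + x)) (2 * r)
  rw [h2, integral_add_left_eq_self F z₀, Complex.finrank_real_complex, smul_eq_mul, abs_of_pos (by positivity)]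
  rw [← mul_assoc, mul_inv_cancel₀ (by positivity), one_mul]

theorem STA_sub_dsc {B : Set (PP 2)} {Z : ℂ → E3} (hZ : DifferentiableOn ℂ Z (ball 0 1)) {z₀ : ℂ} {r : ℝ} (hr : 0 < r)
    (hs : ball z₀ (2 * r) ⊆ {z | z ∈ ball (0 : ℂ) 1 ∧ Z z ∈ cone B}) : Dsc B (STA_sub Z z₀ r) := by
  have hm : ∀ w ∈ ball (0 : ℂ) 1, z₀ + ((2 * r : ℝ) : ℂ) * w ∈ ball z₀ (2 * r) := by
    intro w hw
    rw [mem_ball_zero_iff] at hw
    rw [mem_ball_iff_norm, add_sub_cancel_left, norm_mul, Complex.norm_real, Real.norm_eq_abs, abs_of_pos (by positivity)]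
    nlinarith
  refine ⟨?_, fun w hw => (hs (hm w hw)).2⟩
  have h1 : DifferentiableOn ℂ (fun w : ℂ => z₀ + ((2 * r : ℝ) : ℂ) * w) (ball 0 1) := by fun_prop
  exact hZ.comp h1 fun w hw => (hs (hm w hw)).1

theorem STA_theta {z₀ : ℂ} {r : ℝ} (hr : 0 < r) (hs : ball z₀ (2 * r) ⊆ ball 0 1) :
    Continuous (fun x => eta (((2 * r : ℝ) : ℂ)⁻¹ * (x - z₀)) ^ 2) ∧
      tsupport (fun x => eta (((2 * r : ℝ) : ℂ)⁻¹ * (x - z₀)) ^ 2) ⊆ ball 0 1 ∧
      HasCompactSupport (fun x => eta (((2 * r : ℝ) : ℂ)⁻¹ * (x - z₀)) ^ 2) ∧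
      ∀ x ∈ ball z₀ r, eta (((2 * r : ℝ) : ℂ)⁻¹ * (x - z₀)) = 1 := by
  have hnorm : ∀ x : ℂ, Complex.normSq (((2 * r : ℝ) : ℂ)⁻¹ * (x - z₀)) = ‖x - z₀‖ ^ 2 / (2 * r) ^ 2 := by
    intro x
    rw [Complex.normSq_mul, Complex.normSq_inv, Complex.normSq_ofReal, Complex.normSq_eq_norm_sq]
    field_simp
  have h1 : Continuous (fun x => eta (((2 * r : ℝ) : ℂ)⁻¹ * (x - z₀)) ^ 2) :=
    (STA_eta_smooth.continuous.comp (continuous_const.mul (continuous_id.sub continuous_const))).pow 2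
  have h2 : tsupport (fun x => eta (((2 * r : ℝ) : ℂ)⁻¹ * (x - z₀)) ^ 2) ⊆ closedBall z₀ (4 / 5 * (2 * r)) := by
    apply closure_minimal _ isClosed_closedBall
    intro x hx
    rw [mem_closedBall_iff_norm]
    by_contra hc
    push Not at hc
    apply hx
    have h3 : eta (((2 * r : ℝ) : ℂ)⁻¹ * (x - z₀)) = 0 := by
      unfold eta
      apply Real.smoothTransition.zero_of_nonpos
      rw [hnorm]
      have h4 : (5 / 8 : ℝ) ≤ ‖x - z₀‖ ^ 2 / (2 * r) ^ 2 := by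
        rw [le_div_iff₀ (by positivity)]
        have h5 : (4 / 5 * (2 * r)) ^ 2 ≤ ‖x - z₀‖ ^ 2 := by gcongr
        nlinarith
      linarith
    change eta (((2 * r : ℝ) : ℂ)⁻¹ * (x - z₀)) ^ 2 = 0
    rw [h3]
    norm_num
  have h3 : closedBall z₀ (4 / 5 * (2 * r)) ⊆ ball z₀ (2 * r) := closedBall_subset_ball (by linarith)
  refine ⟨h1, (h2.trans h3).trans hs, ?_, ?_⟩
  · exact IsCompact.of_isClosed_subset (isCompact_closedBall _ _) (isClosed_tsupport _) h2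
  · intro x hx
    apply STA_eta_one
    rw [hnorm, div_le_iff₀ (by positivity)]
    rw [mem_ball_iff_norm] at hx
    have h5 : ‖x - z₀‖ ^ 2 ≤ r ^ 2 := by gcongr
    nlinarith

/-- a ball which receives mass for infinitely many levels is charged -/
theorem STA_charged (hMSS : MSS_stmt) (d : ℕ) (f : Endo 2 d) (U : Set (PP 2)) (hd : 2 ≤ d) (hU : Good0 f U) (C1 : ℝ)
    (hun : ∀ n N : ℕ, n ≤ N → ∀ Z ∈ cone (closure U), |un f N Z - un f n Z| ≤ C1 / (d : ℝ) ^ n)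
    (hpos : ∀ n : ℕ, ∀ Z ∈ cone (closure U), 0 < pq (It f n Z)) (B : Set (PP 2)) (hB : IsOpen B) (hBU : B ⊆ U)
    (Z : ℂ → E3) (hZ : Dsc U Z) (κ : ℂ → ℝ) (hκc : Continuous κ) (hκ1 : ∀ z, κ z ≤ 1)
    (hs : tsupport κ ⊆ {z | z ∈ ball (0 : ℂ) 1 ∧ Z z ∈ cone B}) (a : ℝ) (ha : 0 < a)
    (hfreq : ∃ᶠ N in atTop, a ≤ ∫ z, κ z * tau f N Z z) : Charged f B := by
  classical
  have hO : IsOpen {z | z ∈ ball (0 : ℂ) 1 ∧ Z z ∈ cone B} :=
    hZ.1.continuousOn.isOpen_inter_preimage isOpen_ball (cone_open hB)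
  have hsball : tsupport κ ⊆ ball 0 1 := fun z hz => (hs hz).1
  have hcpt : IsCompact (tsupport κ) :=
    IsCompact.of_isClosed_subset (isCompact_closedBall (0 : ℂ) 1) (isClosed_tsupport _)
      (hsball.trans ball_subset_closedBall)
  have hr : ∀ z : ℂ, ∃ r : ℝ, 0 < r ∧ (z ∈ tsupport κ → ball z (2 * r) ⊆ {z | z ∈ ball (0 : ℂ) 1 ∧ Z z ∈ cone B}) := by
    intro z
    by_cases hz : z ∈ tsupport κ
    · obtain ⟨ε, hε, hε2⟩ := Metric.isOpen_iff.1 hO z (hs hz)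
      refine ⟨ε / 2, by positivity, fun _ => ?_⟩
      rw [mul_div_cancel₀ _ (by norm_num : (2 : ℝ) ≠ 0)]
      exact hε2
    · exact ⟨1, one_pos, fun h => absurd h hz⟩
  choose r hr0 hr2 using hr
  obtain ⟨t, ht, htc⟩ := hcpt.elim_nhds_subcover (fun z => ball z (r z)) fun z _ => ball_mem_nhds z (hr0 z)
  have htau : ∀ N, ContinuousOn (tau f N Z) (ball 0 1) := fun N => STA_tau_cont f U N (hpos N) hZ
  have hsubball : ∀ z ∈ t, ball z (2 * r z) ⊆ ball 0 1 := fun z hz => fun x hx => (hr2 z (ht z hz) hx).1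
  -- the mass is bounded by the masses of the sub-discs
  have hsum : ∀ N, ∫ z, κ z * tau f N Z z ≤ ∑ j ∈ t, mass f N (STA_sub Z j (r j)) := by
    intro N
    have h1 : ∀ j ∈ t, Integrable (fun x => eta (((2 * r j : ℝ) : ℂ)⁻¹ * (x - j)) ^ 2 * tau f N Z x) := by
      intro j hj
      obtain ⟨c1, c2, c3, -⟩ := STA_theta (hr0 j) (hsubball j hj)
      exact MSS_integrable isOpen_ball c1 c2 c3 (htau N)
    have h2 : ∑ j ∈ t, mass f N (STA_sub Z j (r j)) =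
        ∫ x, ∑ j ∈ t, eta (((2 * r j : ℝ) : ℂ)⁻¹ * (x - j)) ^ 2 * tau f N Z x := by
      rw [integral_finsetSum _ h1]
      exact Finset.sum_congr rfl fun j _ => STA_sub_mass f N Z j (hr0 j)
    rw [h2]
    refine integral_mono (MSS_integrable isOpen_ball hκc hsball hcpt (htau N)) (integrable_finsetSum _ h1) fun x => ?_
    have h3 : ∀ j ∈ t, 0 ≤ eta (((2 * r j : ℝ) : ℂ)⁻¹ * (x - j)) ^ 2 * tau f N Z x := fun j _ =>
      mul_nonneg (sq_nonneg _) (STA_tau_nonneg f N Z x)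
    change κ x * tau f N Z x ≤ ∑ j ∈ t, eta (((2 * r j : ℝ) : ℂ)⁻¹ * (x - j)) ^ 2 * tau f N Z x
    by_cases hx : x ∈ tsupport κ
    · obtain ⟨j, hj, hxj⟩ := Set.mem_iUnion₂.1 (htc hx)
      obtain ⟨-, -, -, c4⟩ := STA_theta (hr0 j) (hsubball j hj)
      refine le_trans ?_ (Finset.single_le_sum h3 hj)
      rw [c4 x hxj]
      have := STA_tau_nonneg f N Z x
      nlinarith [hκ1 x]
    · rw [image_eq_zero_of_notMem_tsupport hx, zero_mul]
      exact Finset.sum_nonneg h3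
  -- pigeonhole
  set k : ℝ := (t.card : ℝ) + 1 with hk
  have hk0 : 0 < k := by positivity
  obtain ⟨j, hj, hjf⟩ : ∃ j ∈ t, ∃ᶠ N in atTop, a / k ≤ mass f N (STA_sub Z j (r j)) := by
    by_contra hcon
    push Not at hcon
    have h1 : ∀ᶠ N in atTop, ∀ j ∈ t, mass f N (STA_sub Z j (r j)) < a / k := by
      rw [Filter.eventually_all_finset]
      intro j hj
      have := hcon j hj
      exact this
    obtain ⟨N, hN1, hN2⟩ := (hfreq.and_eventually h1).exists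
    have h2 : ∑ j ∈ t, mass f N (STA_sub Z j (r j)) ≤ ∑ _j ∈ t, a / k := Finset.sum_le_sum fun j hj => (hN2 j hj).le
    rw [Finset.sum_const, nsmul_eq_mul] at h2
    have h3 : (t.card : ℝ) * (a / k) < a := by
      rw [mul_div_assoc', div_lt_iff₀ hk0, hk]
      nlinarith
    linarith [hsum N]
  -- the masses of a disc converge
  have hDB : Dsc B (STA_sub Z j (r j)) := STA_sub_dsc hZ.1 (hr0 j) (hr2 j (ht j hj))
  have hDU : Dsc U (STA_sub Z j (r j)) := ⟨hDB.1, fun z hz => DMS_cone hBU (hDB.2 z hz)⟩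
  have hη2 : ContDiff ℝ 2 (fun z : ℂ => eta z ^ 2) := DMS_eta.1.of_le ENat.LEInfty.out
  obtain ⟨l1, l2, l3⟩ := DMS_lap hη2 DMS_eta.2
  set L : ℝ := ∫ z, |lap (fun z : ℂ => eta z ^ 2) z| with hL
  have hcau : ∀ n N : ℕ, n ≤ N → |mass f N (STA_sub Z j (r j)) - mass f n (STA_sub Z j (r j))| ≤ L * (C1 / (d : ℝ) ^ n) := by
    intro n N hnN
    have e1 : ∀ N, mass f N (STA_sub Z j (r j)) =
        ∫ z, lap (fun z : ℂ => eta z ^ 2) z * un f N (STA_sub Z j (r j) z) := fun N =>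
      (hMSS d f U hd hU _ hDU N).2 _ DMS_eta.1 DMS_eta.2
    rw [e1, e1]
    exact DMS_diff l1 l2 l3 (DMS_un f U N (hpos N) hDU) (DMS_un f U n (hpos n) hDU) _ fun z hz =>
      hun n N hnN _ (DMS_cone subset_closure (hDU.2 z hz))
  have hlim : Tendsto (fun n : ℕ => L * (C1 / (d : ℝ) ^ n)) atTop (𝓝 0) := by
    have h1 : Tendsto (fun n : ℕ => (d : ℝ) ^ n) atTop atTop := tendsto_pow_atTop_atTop_of_one_lt (by
      have : (2 : ℝ) ≤ d := by exact_mod_cast hd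
      linarith)
    have h2 := (h1.const_div_atTop C1).const_mul L
    rwa [mul_zero] at h2
  have hev : ∀ᶠ n : ℕ in atTop, L * (C1 / (d : ℝ) ^ n) < a / k / 2 := hlim.eventually (gt_mem_nhds (by positivity))
  obtain ⟨n, hn1, hn2⟩ := (hjf.and_eventually hev).exists
  refine ⟨_, hDB, a / k / 2, by positivity, ?_⟩
  filter_upwards [eventually_ge_atTop n] with N hN
  have h1 := (abs_le.1 (hcau n N hN)).1
  linarith

end Pool.Agent.P2
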