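import Pool.Agent.helper37.P2.SpecB
import Pool.Agent.helper42.P2.DMS

/-! Project P2 (MP_063734_an), row STA, part 0: calculus for the cut-off functions on discs. -/

set_option autoImplicit false

open scoped ContDiff Topology
open MeasureTheory Filter Set Metric MvPolynomial Pool.Agent.helper37.QA

namespace Pool.Agent.P2

theorem STA_ev {f : ℂ → ℝ} {z : ℂ} (hf : ContDiffAt ℝ 2 f z) : ∀ᶠ w in 𝓝 z, DifferentiableAt ℝ f w :=
  (hf.eventually (by simp)).mono fun _ hw => hw.differentiableAt (by simp)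

theorem STA_dd {f : ℂ → ℝ} {z : ℂ} (hf : ContDiffAt ℝ 2 f z) (v : ℂ) :
    DifferentiableAt ℝ (fun w => fderiv ℝ f w v) z := by
  have h2 : DifferentiableAt ℝ (fderiv ℝ f) z := (hf.fderiv_right (m := 1) (by norm_num)).differentiableAt (by simp)
  exact h2.clm_apply (differentiableAt_const v)

/-- the Laplacian of a product -/
theorem STA_lap_mul {f g : ℂ → ℝ} {z : ℂ} (hf : ContDiffAt ℝ 2 f z) (hg : ContDiffAt ℝ 2 g z) :
    lap (fun w => f w * g w) z = f z * lap g z + g z * lap f z +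
      (1 / 2) * (fderiv ℝ f z 1 * fderiv ℝ g z 1 + fderiv ℝ f z Complex.I * fderiv ℝ g z Complex.I) := by
  have hf1 : DifferentiableAt ℝ f z := hf.differentiableAt (by simp)
  have hg1 : DifferentiableAt ℝ g z := hg.differentiableAt (by simp)
  have key : ∀ v : ℂ, fderiv ℝ (fun w => fderiv ℝ (fun w => f w * g w) w v) z v =
      f z * fderiv ℝ (fun w => fderiv ℝ g w v) z v + g z * fderiv ℝ (fun w => fderiv ℝ f w v) z v +
        2 * (fderiv ℝ f z v * fderiv ℝ g z v) := by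
    intro v
    have h1 : (fun w => fderiv ℝ (fun w => f w * g w) w v) =ᶠ[𝓝 z]
        fun w => f w * fderiv ℝ g w v + g w * fderiv ℝ f w v := by
      filter_upwards [STA_ev hf, STA_ev hg] with w hw1 hw2
      rw [fderiv_fun_mul hw1 hw2]
      simp
    rw [h1.fderiv_eq]
    have h2 := (hf1.hasFDerivAt.mul (STA_dd hg v).hasFDerivAt).add (hg1.hasFDerivAt.mul (STA_dd hf v).hasFDerivAt)
    have h3 : fderiv ℝ (fun w => f w * fderiv ℝ g w v + g w * fderiv ℝ f w v) z = _ := h2.fderiv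
    rw [h3]
    simp
    ring
  rw [MSS_lap (hf.mul hg), MSS_lap hf, MSS_lap hg, key, key]
  ring

/-- the Laplacian of a linear combination -/
theorem STA_lap_lin {f g : ℂ → ℝ} {z : ℂ} (hf : ContDiffAt ℝ 2 f z) (hg : ContDiffAt ℝ 2 g z) (a b : ℝ) :
    lap (fun w => a * f w + b * g w) z = a * lap f z + b * lap g z := by
  have key : ∀ v : ℂ, fderiv ℝ (fun w => fderiv ℝ (fun w => a * f w + b * g w) w v) z v =
      a * fderiv ℝ (fun w => fderiv ℝ f w v) z v + b * fderiv ℝ (fun w => fderiv ℝ g w v) z v := by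
    intro v
    have h1 : (fun w => fderiv ℝ (fun w => a * f w + b * g w) w v) =ᶠ[𝓝 z]
        fun w => a * fderiv ℝ f w v + b * fderiv ℝ g w v := by
      filter_upwards [STA_ev hf, STA_ev hg] with w hw1 hw2
      have h2 := (hw1.hasFDerivAt.const_mul a).add (hw2.hasFDerivAt.const_mul b)
      have h3 : fderiv ℝ (fun w => a * f w + b * g w) w = _ := h2.fderiv
      rw [h3]
      simp
    rw [h1.fderiv_eq]
    have h2 := ((STA_dd hf v).hasFDerivAt.const_mul a).add ((STA_dd hg v).hasFDerivAt.const_mul b)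
    have h3 : fderiv ℝ (fun w => a * fderiv ℝ f w v + b * fderiv ℝ g w v) z = _ := h2.fderiv
    rw [h3]
    simp
  have hfg : ContDiffAt ℝ 2 (fun w => a * f w + b * g w) z := (contDiffAt_const.mul hf).add (contDiffAt_const.mul hg)
  rw [MSS_lap hfg, MSS_lap hf, MSS_lap hg, key, key]
  ring

/-- the chain rule for the gradient -/
theorem STA_grad_comp {H : ℝ → ℝ} (hH : ContDiff ℝ 2 H) {f : ℂ → ℝ} {z : ℂ} (hf : DifferentiableAt ℝ f z) (v : ℂ) :
    fderiv ℝ (fun w => H (f w)) z v = deriv H (f z) * fderiv ℝ f z v := by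
  have h1 : HasDerivAt H (deriv H (f z)) (f z) := ((hH.differentiable (by simp)) (f z)).hasDerivAt
  have h2 := h1.comp_hasFDerivAt z hf.hasFDerivAt
  have h3 : fderiv ℝ (fun w => H (f w)) z = _ := h2.fderiv
  rw [h3]
  simp

/-- the chain rule for the Laplacian -/
theorem STA_lap_comp {H : ℝ → ℝ} (hH : ContDiff ℝ 2 H) {f : ℂ → ℝ} {z : ℂ} (hf : ContDiffAt ℝ 2 f z) :
    lap (fun w => H (f w)) z = deriv H (f z) * lap f z +
      (1 / 4) * (deriv (deriv H) (f z) * (fderiv ℝ f z 1 ^ 2 + fderiv ℝ f z Complex.I ^ 2)) := by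
  have hf1 : DifferentiableAt ℝ f z := hf.differentiableAt (by simp)
  have hH1 : ContDiff ℝ 1 (deriv H) := by
    have : ContDiff ℝ (1 + 1) H := by
      rw [one_add_one_eq_two]
      exact hH
    exact (contDiff_succ_iff_deriv.1 this).2.2
  have key : ∀ v : ℂ, fderiv ℝ (fun w => fderiv ℝ (fun w => H (f w)) w v) z v =
      deriv H (f z) * fderiv ℝ (fun w => fderiv ℝ f w v) z v + deriv (deriv H) (f z) * fderiv ℝ f z v ^ 2 := by
    intro v
    have h1 : (fun w => fderiv ℝ (fun w => H (f w)) w v) =ᶠ[𝓝 z]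
        fun w => deriv H (f w) * fderiv ℝ f w v := by
      filter_upwards [STA_ev hf] with w hw1
      exact STA_grad_comp hH hw1 v
    rw [h1.fderiv_eq]
    have h4 : HasDerivAt (deriv H) (deriv (deriv H) (f z)) (f z) := ((hH1.differentiable (by simp)) (f z)).hasDerivAt
    have h5 := h4.comp_hasFDerivAt z hf1.hasFDerivAt
    have h2 := h5.mul (STA_dd hf v).hasFDerivAt
    have h3 : fderiv ℝ (fun w => deriv H (f w) * fderiv ℝ f w v) z = _ := h2.fderiv
    rw [h3]
    simp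
    ring
  have hHf : ContDiffAt ℝ 2 (fun w => H (f w)) z := hH.contDiffAt.comp z hf
  rw [MSS_lap hHf, MSS_lap hf, key, key]
  ring

/-- Cauchy-Schwarz -/
theorem STA_cs (v q : E3) : Complex.normSq (INTM_ip v q) ≤ nq v * nq q := by
  have h := INTM_lagr q v
  have h2 := INTM_nq_nonneg (crs q v)
  linarith [mul_comm (nq v) (nq q)]

/-- the gradient of the logarithm: algebra -/
theorem STA_alg (Z X q : E3) (hq : nq q = 1) :
    Complex.normSq (INTM_ip X q * (nq Z : ℂ) - INTM_ip Z q * INTM_ip X Z) ≤ nq Z * nq (crs Z X) := by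
  have h1 : INTM_ip X q * (nq Z : ℂ) - INTM_ip Z q * INTM_ip X Z =
      INTM_ip (fun i => (nq Z : ℂ) * X i + (-(INTM_ip X Z)) * Z i) q := by
    simp only [INTM_ip]
    rw [Finset.sum_mul, Finset.sum_mul, ← Finset.sum_sub_distrib]
    refine Finset.sum_congr rfl fun i _ => ?_
    ring
  rw [h1]
  refine (STA_cs _ _).trans ?_
  rw [hq, mul_one]
  have h2 := INTM_exp X Z (nq Z : ℂ) (-(INTM_ip X Z))
  rw [INTM_ip_self, Complex.ofReal_re] at h2
  rw [h2, INTM_lagr, Complex.normSq_neg, map_neg (starRingEnd ℂ)]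
  have h3 : ((nq Z : ℂ) * -(starRingEnd ℂ) (INTM_ip X Z) * INTM_ip X Z).re = -(nq Z * Complex.normSq (INTM_ip X Z)) := by
    have h4 : (nq Z : ℂ) * -(starRingEnd ℂ) (INTM_ip X Z) * INTM_ip X Z =
        ((-(nq Z * Complex.normSq (INTM_ip X Z)) : ℝ) : ℂ) := by
      push_cast
      rw [← Complex.mul_conj]
      ring
    rw [h4, Complex.ofReal_re]
  rw [h3, Complex.normSq_ofReal]
  linarith

/-- `log` of the modulus of the affine coordinate -/
noncomputable def STA_psi (q : E3) (Z : ℂ → E3) (z : ℂ) : ℝ :=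
  Real.log (Complex.normSq (INTM_ip (Z z) q)) - Real.log (nq (Z z))

/-- the cosine of the angle to `q` -/
noncomputable def STA_phi (q W : E3) : ℝ := Complex.normSq (INTM_ip W q) / nq W

theorem STA_ip_hol {Z : ℂ → E3} {Ω : Set ℂ} (hZ : DifferentiableOn ℂ Z Ω) (q : E3) :
    DifferentiableOn ℂ (fun z => INTM_ip (Z z) q) Ω := by
  unfold INTM_ip
  refine DifferentiableOn.fun_sum fun i _ => ?_
  exact DifferentiableOn.mul_const (fun w hw => (differentiableWithinAt_pi.1 (hZ w hw)) i) _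

theorem STA_ip_deriv {Z : ℂ → E3} {Ω : Set ℂ} (hΩ : IsOpen Ω) (hZ : DifferentiableOn ℂ Z Ω) (q : E3) {z : ℂ} (hz : z ∈ Ω) :
    HasDerivAt (fun z => INTM_ip (Z z) q) (INTM_ip (deriv Z z) q) z := by
  unfold INTM_ip
  refine HasDerivAt.fun_sum fun i _ => ?_
  have h1 : HasDerivAt Z (deriv Z z) z := (hZ.differentiableAt (hΩ.mem_nhds hz)).hasDerivAt
  exact ((hasDerivAt_pi.1 h1) i).mul_const _

theorem STA_nq_deriv {Z : ℂ → E3} {Ω : Set ℂ} (hΩ : IsOpen Ω) (hZ : DifferentiableOn ℂ Z Ω) {z : ℂ} (hz : z ∈ Ω) :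
    HasFDerivAt (fun z => nq (Z z)) ((2 : ℝ) • INTM_Lam (INTM_ip (deriv Z z) (Z z))) z := by
  have h1 : HasDerivAt Z (deriv Z z) z := (hZ.differentiableAt (hΩ.mem_nhds hz)).hasDerivAt
  have h2 := HasFDerivAt.fun_sum (u := Finset.univ) fun i _ => INTM_nsq ((hasDerivAt_pi.1 h1) i)
  refine h2.congr_fderiv ?_
  unfold INTM_ip
  rw [map_sum, Finset.smul_sum]
  refine Finset.sum_congr rfl fun i _ => ?_
  rw [mul_comm]

/-- gradient and Laplacian of `psi` -/
theorem STA_psi_est (q : E3) (hq : nq q = 1) {Z : ℂ → E3} {Ω : Set ℂ} (hΩ : IsOpen Ω) (hZ : DifferentiableOn ℂ Z Ω)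
    (h0 : ∀ z ∈ Ω, Z z ≠ 0) {z : ℂ} (hz : z ∈ Ω) (ha : INTM_ip (Z z) q ≠ 0) :
    ContDiffAt ℝ 2 (STA_psi q Z) z ∧ lap (STA_psi q Z) z = -2 * ar Z z ∧
      (fderiv ℝ (STA_psi q Z) z 1 ^ 2 + fderiv ℝ (STA_psi q Z) z Complex.I ^ 2) * STA_phi q (Z z) ≤ 8 * ar Z z := by
  have hN : 0 < nq (Z z) := INTM_nq_pos _ (h0 z hz)
  have hA : 0 < Complex.normSq (INTM_ip (Z z) q) := Complex.normSq_pos.2 ha
  set G : ℂ → Fin 1 → ℂ := fun w _ => INTM_ip (Z w) q with hG
  have hGd : DifferentiableOn ℂ G Ω := differentiableOn_pi.2 fun _ => STA_ip_hol hZ q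
  have hG0 : G z ≠ 0 := fun h => ha (congrFun h 0)
  have hnqG : ∀ w, nq (G w) = Complex.normSq (INTM_ip (Z w) q) := fun w => by
    unfold nq
    rw [Fin.sum_univ_one]
  have c : ∀ i, ContDiffAt ℝ 2 (fun z => Z z i) z := fun i => by
    have h2 : DifferentiableOn ℂ (fun w => Z w i) Ω := fun w hw => (differentiableWithinAt_pi.1 (hZ w hw)) i
    exact ((h2.analyticAt (hΩ.mem_nhds hz)).contDiffAt (n := 2)).restrict_scalars ℝ
  have hN2 : ContDiffAt ℝ 2 (fun t => nq (Z t)) z := by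
    unfold nq
    exact ContDiffAt.sum fun i _ => MAU_contDiff_normSq.contDiffAt.comp z (c i)
  have hA2 : ContDiffAt ℝ 2 (fun t => nq (G t)) z := by
    have h3 : ContDiffAt ℝ 2 (fun z => INTM_ip (Z z) q) z :=
      (((STA_ip_hol hZ q).analyticAt (hΩ.mem_nhds hz)).contDiffAt (n := 2)).restrict_scalars ℝ
    have h4 : ContDiffAt ℝ 2 (fun t => Complex.normSq (INTM_ip (Z t) q)) z := MAU_contDiff_normSq.contDiffAt.comp z h3
    exact h4.congr_of_eventuallyEq (Eventually.of_forall hnqG)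
  have hNl : ContDiffAt ℝ 2 (fun t => (1 / 2) * Real.log (nq (Z t))) z := contDiffAt_const.mul (hN2.log hN.ne')
  have hAl : ContDiffAt ℝ 2 (fun t => (1 / 2) * Real.log (nq (G t))) z :=
    contDiffAt_const.mul (hA2.log (by rw [hnqG]; exact hA.ne'))
  have hpsi : STA_psi q Z = fun t => 2 * ((1 / 2) * Real.log (nq (G t))) + (-2) * ((1 / 2) * Real.log (nq (Z t))) := by
    funext t
    unfold STA_psi
    rw [hnqG]
    ring
  refine ⟨?_, ?_, ?_⟩
  · rw [hpsi]
    exact (contDiffAt_const.mul hAl).add (contDiffAt_const.mul hNl)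
  · rw [hpsi, STA_lap_lin hAl hNl, INTM_lap G Ω hΩ z hz hGd hG0, INTM_lap Z Ω hΩ z hz hZ (h0 z hz)]
    have h5 : nq (G z) * nq (deriv G z) - Complex.normSq (INTM_ip (deriv G z) (G z)) = 0 := by
      unfold nq INTM_ip
      rw [Fin.sum_univ_one, Fin.sum_univ_one, Fin.sum_univ_one, Complex.normSq_mul, Complex.normSq_conj]
      ring
    rw [h5]
    unfold ar
    rw [INTM_lagr]
    ring
  · -- the gradient
    set S : ℂ := INTM_ip (deriv Z z) (Z z) with hS
    set a : ℂ := INTM_ip (Z z) q with haa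
    set a' : ℂ := INTM_ip (deriv Z z) q with ha'
    set N : ℝ := nq (Z z) with hNN
    have hd1 := (INTM_nsq (STA_ip_deriv hΩ hZ q hz)).log hA.ne'
    have hd2 := (STA_nq_deriv hΩ hZ hz).log hN.ne'
    have hd3 : fderiv ℝ (STA_psi q Z) z = _ := (hd1.sub hd2).fderiv
    set g : ℂ := a' / a - S / (N : ℂ) with hg
    have hval : ∀ v, fderiv ℝ (STA_psi q Z) z v = 2 * (g * v).re := by
      intro v
      rw [hd3]
      have e1 : (starRingEnd ℂ) a * a' / (Complex.normSq a : ℂ) = a' / a := by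
        rw [← Complex.mul_conj]
        have hca : (starRingEnd ℂ) a ≠ 0 := by simpa using ha
        field_simp
      have e2 : g * v = ((Complex.normSq a : ℂ))⁻¹ * ((starRingEnd ℂ) a * a' * v) - ((N : ℂ))⁻¹ * (S * v) := by
        rw [hg, ← e1]
        ring
      rw [e2, Complex.sub_re, ← Complex.ofReal_inv, ← Complex.ofReal_inv, Complex.re_ofReal_mul, Complex.re_ofReal_mul]
      simp only [sub_apply, smul_apply, INTM_Lam_apply, smul_eq_mul]
      ring
    have h1 := hval 1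
    have h2 := hval Complex.I
    have h3 : fderiv ℝ (STA_psi q Z) z 1 ^ 2 + fderiv ℝ (STA_psi q Z) z Complex.I ^ 2 = 4 * Complex.normSq g := by
      rw [h1, h2, Complex.normSq_apply]
      simp
      ring
    have h4 : Complex.normSq g * (Complex.normSq a * N ^ 2) ≤ N * nq (crs (Z z) (deriv Z z)) := by
      have h5 := STA_alg (Z z) (deriv Z z) q hq
      have h6 : a' * (N : ℂ) - a * S = g * (a * (N : ℂ)) := by
        have hNc : (N : ℂ) ≠ 0 := by exact_mod_cast hN.ne'
        rw [hg]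
        field_simp
      rw [← haa, ← ha', ← hS, ← hNN, h6, Complex.normSq_mul, Complex.normSq_mul, Complex.normSq_ofReal] at h5
      calc _ = Complex.normSq g * (Complex.normSq a * (N * N)) := by ring
        _ ≤ _ := h5
    rw [h3]
    unfold STA_phi ar
    rw [← haa, ← hNN]
    have e : 4 * Complex.normSq g * (Complex.normSq a / N) = 4 * (Complex.normSq g * (Complex.normSq a * N ^ 2)) / N ^ 3 := by
      field_simp
    rw [e, div_le_iff₀ (by positivity)]
    have e' : 8 * (nq (crs (Z z) (deriv Z z)) / (2 * N ^ 2)) * N ^ 3 = 4 * (N * nq (crs (Z z) (deriv Z z))) := by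
      field_simp
      ring
    rw [e']
    linarith

end Pool.Agent.P2
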