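import Pool.Agent.helper83.P2.SpecV

set_option autoImplicit false

open scoped ContDiff Topology
open MeasureTheory Filter Set Metric MvPolynomial Pool.Agent.helper37.QA Pool.Agent.P2

namespace Pool.Agent.P2V

theorem VPT_mv_one (Z : E3) : mv one3 Z = Z := by
  funext i
  unfold mv one3
  simp

theorem VPT_near {r : ℝ} (hr : 0 < r) (i j : Fin 3) (v : ℂ) (hv : ‖v‖ < r) : Near r (adE one3 i j v) := by
  intro k l
  unfold adE
  rw [add_sub_cancel_left]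
  split_ifs
  · exact hv
  · rwa [norm_zero]

theorem VPT_near1 {r : ℝ} (hr : 0 < r) : Near r one3 := by
  intro k l
  rw [sub_self, norm_zero]
  exact hr

theorem VPT_sub {n : ℕ} (A : Fin n → ID) (ι : Fin 2) :
    ∃ (n' : ℕ) (e : Fin n' → Fin n), Function.Injective e ∧ (∀ i, (A (e i)).ι = ι) ∧
      ∀ F : Fin n → ℝ, ∑ i, F (e i) = ∑ a with (A a).ι = ι, F a := by
  classical
  obtain ⟨e⟩ : Nonempty (Fin (Fintype.card {a : Fin n // (A a).ι = ι}) ≃ {a : Fin n // (A a).ι = ι}) :=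
    ⟨(Fintype.equivFin _).symm⟩
  refine ⟨_, fun i => (e i : Fin n), ?_, fun i => (e i).2, ?_⟩
  · intro i j h
    exact e.injective (Subtype.ext h)
  · intro F
    rw [Equiv.sum_comp e (fun x : {a : Fin n // (A a).ι = ι} => F x)]
    rw [Finset.sum_subtype (Finset.univ.filter (fun a => (A a).ι = ι)) (p := fun a => (A a).ι = ι)
      (by intro x; simp) F]

/-- the numbers -/
theorem VPT_num (M T CS CP CQ k0 s' p q σ C2 h E Z tot : ℝ) (hM : 1 ≤ M) (hCS : 0 ≤ CS) (hCP : 0 ≤ CP)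
    (hCQ : 0 ≤ CQ) (hk0 : 0 ≤ k0) (hp : 1 ≤ p) (hq0 : 0 ≤ q) (hqp : q ≤ p) (hσ0 : 0 ≤ σ) (hσ : σ ≤ k0 * M)
    (hh : 0 ≤ h) (hE : 0 ≤ E) (hZ0 : 0 ≤ Z)
    (hZ : Z ≤ 2 * Real.pi * (M * (T + CS) + CP * q * σ + C2 * h) + CQ * σ)
    (htot : tot ≤ 2 * Z + E * h) :
    tot ≤ 100 * (M * T + (CS + CP * k0 + CQ * k0) * M * p + (C2 + E) * h) := by
  have hpi : 3 < Real.pi := Real.pi_gt_three
  have hpi2 : Real.pi < 4 := Real.pi_lt_four
  have hM0 : 0 ≤ M := by linarith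
  have a1 : CP * q * σ ≤ CP * p * (k0 * M) :=
    mul_le_mul (mul_le_mul_of_nonneg_left hqp hCP) hσ hσ0 (by positivity)
  have a2 : CQ * σ ≤ CQ * (k0 * M) := mul_le_mul_of_nonneg_left hσ hCQ
  have a3 : CQ * (k0 * M) ≤ CQ * (k0 * M) * p := le_mul_of_one_le_right (by positivity) hp
  have a4 : CS * M ≤ CS * M * p := le_mul_of_one_le_right (by positivity) hp
  have a5 : 0 ≤ CQ * (k0 * M) * p := by positivity
  obtain ⟨B, hB⟩ : ∃ B, B = M * T + (CS + CP * k0 + CQ * k0) * M * p + C2 * h := ⟨_, rfl⟩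
  have b1 : Z ≤ 2 * Real.pi * B := by
    have b2 : M * (T + CS) + CP * q * σ + C2 * h + CQ * (k0 * M) * p ≤ B := by
      rw [hB]
      nlinarith
    have b3 : 2 * Real.pi * (M * (T + CS) + CP * q * σ + C2 * h + CQ * (k0 * M) * p) ≤ 2 * Real.pi * B :=
      mul_le_mul_of_nonneg_left b2 (by positivity)
    have b4 : CQ * (k0 * M) * p ≤ 2 * Real.pi * (CQ * (k0 * M) * p) := by
      nlinarith
    nlinarith
  have b5 : 0 ≤ B := by
    by_contra hneg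
    push Not at hneg
    nlinarith
  have b6 : 2 * Real.pi * B ≤ 50 * B := by nlinarith
  have b7 : 0 ≤ E * h := by positivity
  have b8 : tot ≤ 100 * B + 100 * (E * h) := by linarith
  rw [hB] at b8
  linarith

theorem VPT (hRAD : RAD_stmt) (hVTR : VTR_stmt) (hVWT : VWT_stmt) (hVQL : VQL_stmt) (hVST : VST_stmt)
    (hVP2 : VP2_stmt) : VPT_stmt := by
  classical
  intro d f U r κ Λ Kb hd hU hr hr1 hRad hκ hκ1 hΛ hKb
  obtain ⟨CW, hCW, hW⟩ := hVWT d f U κ hd hU hκ hκ1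
  obtain ⟨CQ, hCQ, hQ⟩ := hVQL d f U κ hd hU hκ hκ1
  obtain ⟨CS, hCS, hS⟩ := hVST d f U κ hd hU hκ hκ1
  obtain ⟨CP, α, hCP, hα, hP⟩ := hVP2 d f U r κ Λ hd hU hr hr1 hRad hκ hκ1 hΛ
  obtain ⟨k0, hk0⟩ : ∃ k0, k0 = CW * (Kb + 1) := ⟨_, rfl⟩
  have hk0p : 0 ≤ k0 := by
    rw [hk0]
    positivity
  have hCP0 : 0 ≤ CP := by linarith
  have hCQ0 : 0 ≤ CQ := by linarith
  have hCS0 : 0 ≤ CS := by linarith
  have hCW0 : 0 ≤ CW := by linarith
  refine ⟨CS + CP * k0 + CQ * k0, α, ?_, hα, ?_⟩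
  · have h1 : 0 ≤ CP * k0 := mul_nonneg hCP0 hk0p
    have h2 : 0 ≤ CQ * k0 := mul_nonneg hCQ0 hk0p
    linarith
  intro s m hs hsr
  obtain ⟨C2, hC2, hP2⟩ := hP s hs hsr
  obtain ⟨E, hE⟩ : ∃ E, E = CQ * (1 + Λ) * (m + 1) * (CW * (Kb + 1) ^ (1 / 2 : ℝ)) := ⟨_, rfl⟩
  have hE0 : 0 ≤ E := by
    rw [hE]
    positivity
  have hm0 : (0 : ℝ) ≤ m := Nat.cast_nonneg m
  have hC2m : C2 ≤ C2 * (m + 1) := le_mul_of_one_le_right (by linarith) (by linarith)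
  refine ⟨C2 * (m + 1) + E, by linarith, ?_⟩
  intro N Y b n A hmN hY hMC hun hJ hF
  obtain ⟨M, hMdef⟩ : ∃ M, M = mass f N Y := ⟨_, rfl⟩
  rw [← hMdef] at hMC
  have hC2M : C2 ≤ M := by linarith
  have hM1 : 1 ≤ M := by linarith
  have hM0 : 0 < M := by linarith
  have hYd : DifferentiableOn ℂ Y (ball 0 1) := hY.1
  have hYU : Dsc U Y := by
    refine ⟨hYd, fun z hz => ?_⟩
    have := hRad one3 (VPT_near1 hr) (Y z) (hY.2 z hz)
    rwa [VPT_mv_one] at this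
  have hAv : ∀ ι : Fin 2, ∀ v ∈ ball (0 : ℂ) (16 * s), ∀ z ∈ ball (0 : ℂ) 1, Av ι v Y z ∈ cone U := by
    intro ι v hv z hz
    rw [mem_ball_zero_iff] at hv
    exact hRad _ (VPT_near hr 2 ι.castSucc v (lt_of_lt_of_le hv hsr)) (Y z) (hY.2 z hz)
  have h16 : 16 * s ≤ 1 / 4 := by linarith
  have hs1 : s ≤ 1 := by linarith
  obtain ⟨W, hWg, -, hWs, hWd⟩ := hW N Y (Kb * M) n A hYU (by positivity)
    (fun z hz => by rw [hMdef]; exact hun z hz) hF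
  -- the bounds for QR
  have hQa : ∀ a, QR f m (Λ * m) s N (A a).ι (A a).c κ (A a).γ ≤
      2 * Real.pi * (∫ v, phr (2 * s) v * Dj f Λ m N (A a).ι (A a).c κ (A a).γ v) + CQ ∧
      0 ≤ QR f m (Λ * m) s N (A a).ι (A a).c κ (A a).γ ∧
      QR f m (Λ * m) s N (A a).ι (A a).c κ (A a).γ ≤ CQ * (1 + Λ) * (m + 1) := by
    intro a
    obtain ⟨hc, hIs⟩ := hF.1 a
    have htube := (hVTR d f U hd hU N (16 * s) κ Y (A a).ι (A a).c (A a).g (A a).γ (by positivity) hκ hYd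
      (hAv (A a).ι) hIs).2.2
    obtain ⟨q1, q2, q3, -⟩ := hQ Λ s m N (A a).ι (A a).c (A a).γ hΛ hs h16 hmN hc hIs.2.2.1
      (fun ξ hξ v hv => (htube ξ hξ v hv).1)
    exact ⟨q1, q2, q3⟩
  obtain ⟨T, hT⟩ : ∃ T, T = b - Tf f Λ m N Y := ⟨_, rfl⟩
  obtain ⟨σ, hσ⟩ : ∃ σ, σ = CW * (Kb * M + 1) := ⟨_, rfl⟩
  have hσ0 : 0 ≤ σ := by
    rw [hσ]
    positivity
  have hσk : σ ≤ k0 * M := by
    rw [hσ, hk0]
    nlinarith
  obtain ⟨q, hq⟩ : ∃ q, q = ((m : ℝ) + 1) * s ^ α := ⟨_, rfl⟩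
  have hsα0 : 0 ≤ s ^ α := Real.rpow_nonneg hs.le _
  have hsα1 : s ^ α ≤ 1 := Real.rpow_le_one hs.le hs1 hα.le
  have hq0 : 0 ≤ q := by
    rw [hq]
    positivity
  obtain ⟨h, hh⟩ : ∃ h, h = M ^ (1 / 2 : ℝ) := ⟨_, rfl⟩
  have hh0 : 0 ≤ h := by
    rw [hh]
    positivity
  obtain ⟨Z, hZdef⟩ : ∃ Z, Z = 2 * Real.pi * (M * (T + CS) + CP * q * σ + C2 * (m + 1) * h) + CQ * σ := ⟨_, rfl⟩
  -- one value of ι
  have hpart : ∀ ι : Fin 2,
      0 ≤ ∑ a with (A a).ι = ι, W a * QR f m (Λ * m) s N (A a).ι (A a).c κ (A a).γ ∧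
      ∑ a with (A a).ι = ι, W a * QR f m (Λ * m) s N (A a).ι (A a).c κ (A a).γ ≤ Z := by
    intro ι
    refine ⟨Finset.sum_nonneg fun a _ => mul_nonneg (hWg a).1 (hQa a).2.1, ?_⟩
    obtain ⟨n', e, he, hι, hsum⟩ := VPT_sub A ι
    have hF' : Fam Y κ (fun i => A (e i)) := ⟨fun i => hF.1 (e i), fun i j hij => hF.2 _ _ (fun h => hij (he h))⟩
    have hW' : Wgt (fun i => A (e i)) (fun i => W (e i)) := fun i => hWg (e i)
    have p1 := hP2 m N Y b ι n' (fun i => A (e i)) (fun i => W (e i)) hmN hY (by rw [← hMdef]; exact hC2M)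
      (hJ ι) hι hF' hW'
    have p2 := hS Λ s m N Y ι n' (fun i => A (e i)) (fun i => W (e i)) hΛ hs h16 hmN hYd (hAv ι)
      (by rw [← hMdef]; exact hM0) hι hF' hW'
    rw [← hMdef] at p1 p2
    rw [← hsum (fun a => W a * QR f m (Λ * m) s N (A a).ι (A a).c κ (A a).γ)]
    have hσι0 : 0 ≤ ∑ i, W (e i) := Finset.sum_nonneg fun i _ => (hWg (e i)).1
    have hσι : ∑ i, W (e i) ≤ σ := by
      rw [hsum W, hσ]
      refine le_trans ?_ hWs
      exact Finset.sum_le_sum_of_subset_of_nonneg (Finset.filter_subset _ _) (fun a _ _ => (hWg a).1)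
    have p3 : ∑ i, W (e i) * QR f m (Λ * m) s N (A (e i)).ι (A (e i)).c κ (A (e i)).γ ≤
        2 * Real.pi * (∑ i, W (e i) * (∫ v, phr (2 * s) v * Dj f Λ m N ι (A (e i)).c κ (A (e i)).γ v)) +
          CQ * ∑ i, W (e i) := by
      rw [Finset.mul_sum, Finset.mul_sum, ← Finset.sum_add_distrib]
      apply Finset.sum_le_sum
      intro i _
      have h1 := (hQa (e i)).1
      rw [hι i] at h1 ⊢
      have h2 := mul_le_mul_of_nonneg_left h1 (hWg (e i)).1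
      linarith
    have p4 : CQ * ∑ i, W (e i) ≤ CQ * σ := mul_le_mul_of_nonneg_left hσι hCQ0
    have p5 : CP * (m + 1) * s ^ α * ∑ i, W (e i) ≤ CP * q * σ := by
      rw [hq]
      have h1 : CP * (m + 1) * s ^ α = CP * (((m : ℝ) + 1) * s ^ α) := by ring
      rw [h1]
      exact mul_le_mul_of_nonneg_left hσι (by positivity)
    have p6 : ∑ i, W (e i) * (∫ v, phr (2 * s) v * Dj f Λ m N ι (A (e i)).c κ (A (e i)).γ v) ≤
        M * (T + CS) + CP * q * σ + C2 * (m + 1) * h := by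
      rw [hT, hh]
      linarith
    have p7 := mul_le_mul_of_nonneg_left p6 (by positivity : (0 : ℝ) ≤ 2 * Real.pi)
    rw [hZdef]
    linarith
  have hZ0 : 0 ≤ Z := (hpart 0).1.trans (hpart 0).2
  -- the total sum
  obtain ⟨tot, htot⟩ : ∃ tot, tot = ∑ a, eta ((A a).g 0) ^ 2 * QR f m (Λ * m) s N (A a).ι (A a).c κ (A a).γ :=
    ⟨_, rfl⟩
  have hsplit : ∑ a, W a * QR f m (Λ * m) s N (A a).ι (A a).c κ (A a).γ ≤ 2 * Z := by
    rw [← Finset.sum_fiberwise Finset.univ (fun a => (A a).ι)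
      (fun a => W a * QR f m (Λ * m) s N (A a).ι (A a).c κ (A a).γ), Fin.sum_univ_two]
    linarith [(hpart 0).2, (hpart 1).2]
  have hhM : (Kb * M + 1) ^ (1 / 2 : ℝ) ≤ (Kb + 1) ^ (1 / 2 : ℝ) * h := by
    rw [hh, ← Real.mul_rpow (by positivity) hM0.le]
    apply Real.rpow_le_rpow (by positivity) _ (by norm_num)
    nlinarith
  have hdiff : ∑ a, (eta ((A a).g 0) ^ 2 - W a) * QR f m (Λ * m) s N (A a).ι (A a).c κ (A a).γ ≤ E * h := by
    have h1 : ∀ a, (eta ((A a).g 0) ^ 2 - W a) * QR f m (Λ * m) s N (A a).ι (A a).c κ (A a).γ ≤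
        (eta ((A a).g 0) ^ 2 - W a) * (CQ * (1 + Λ) * (m + 1)) := by
      intro a
      apply mul_le_mul_of_nonneg_left (hQa a).2.2
      have := (hWg a).2 0 (by rw [norm_zero]; norm_num)
      linarith
    refine (Finset.sum_le_sum fun a _ => h1 a).trans ?_
    rw [← Finset.sum_mul]
    have h2 : (0 : ℝ) ≤ CQ * (1 + Λ) * (m + 1) := by positivity
    have h3 : ∑ a, (eta ((A a).g 0) ^ 2 - W a) ≤ CW * ((Kb + 1) ^ (1 / 2 : ℝ) * h) :=
      hWd.trans (mul_le_mul_of_nonneg_left hhM hCW0)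
    have h4 := mul_le_mul_of_nonneg_right h3 h2
    have h5 : CW * ((Kb + 1) ^ (1 / 2 : ℝ) * h) * (CQ * (1 + Λ) * (m + 1)) = E * h := by
      rw [hE]
      ring
    rwa [h5] at h4
  have htot2 : tot ≤ 2 * Z + E * h := by
    have h1 : tot = ∑ a, W a * QR f m (Λ * m) s N (A a).ι (A a).c κ (A a).γ +
        ∑ a, (eta ((A a).g 0) ^ 2 - W a) * QR f m (Λ * m) s N (A a).ι (A a).c κ (A a).γ := by
      rw [htot, ← Finset.sum_add_distrib]
      apply Finset.sum_congr rfl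
      intro a _
      ring
    rw [h1]
    linarith
  have hp1 : (1 : ℝ) ≤ 1 + m * s ^ α := by
    have : 0 ≤ (m : ℝ) * s ^ α := by positivity
    linarith
  have hqp : q ≤ 1 + m * s ^ α := by
    rw [hq]
    linarith
  have hfin := VPT_num M T CS CP CQ k0 s (1 + m * s ^ α) q σ (C2 * (m + 1)) h E Z tot hM1 hCS0 hCP0 hCQ0 hk0p
    hp1 hq0 hqp hσ0 hσk hh0 hE0 hZ0 (by rw [hZdef]) htot2
  have hMi : M * M ^ (-(1 / 2) : ℝ) = h := by
    rw [hh]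
    have h1 : M * M ^ (-(1 / 2) : ℝ) = M ^ (1 : ℝ) * M ^ (-(1 / 2) : ℝ) := by rw [Real.rpow_one]
    rw [h1, ← Real.rpow_add hM0]
    norm_num
  rw [← hMdef, ← htot, ← hT, inv_mul_le_iff₀ hM0]
  refine hfin.trans (le_of_eq ?_)
  rw [← hMi]
  ring

end Pool.Agent.P2V
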